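import Pool.Agent.L5helper68.FB.Main

/-!
# Commuting monodromies
-/

set_option autoImplicit false

open Representation TensorProduct Pool.Agent.L5helper68.GD

namespace Pool.Agent.L5helper68.FB

variable {Ω : Type} [Field Ω] {p d : ℕ} [Fact p.Prime] {𝓒 𝓖 : Cls Ω}

/-! ### Stably irreducible representations -/

lemma irr_of_range {G G' V : Type} [Group G] [Group G'] [AddCommGroup V] [Module Ω V]
    {ρ : Representation Ω G V} {f : G' →* G} (h : Irr (Res f.range.subtype ρ)) : Irr (Res f ρ) := by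
  refine ⟨h.1, fun U hU => h.2 U ?_⟩
  rintro ⟨_, g, rfl⟩ v hv
  exact hU g v hv

lemma Stable.sirr {G : Type} [Group G] {A : GRep Ω G} (h : Stable A) :
    SIrr A.ρ := fun U hU => (h U hU).2

lemma Stable.res {G G' : Type} [Group G] [Group G'] {A : GRep Ω G}
    (h : Stable A) {f : G' →* G} (hf : f.range.FiniteIndex) :
    Stable (A.res f) := by
  intro U hU
  have hfin : FiniteDimensional Ω A.V := (h ⊤ inferInstance).1
  refine ⟨hfin, ?_⟩
  have h1 : (U.map f).FiniteIndex := by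
    refine ⟨?_⟩
    rw [Subgroup.index_map]
    refine mul_ne_zero ?_ hf.index_ne_zero
    have : (U ⊔ f.ker).FiniteIndex := Subgroup.finiteIndex_of_le le_sup_left
    exact this.index_ne_zero
  have h2 := (h _ h1).2
  refine ⟨h2.1, fun W hW => h2.2 W ?_⟩
  rintro ⟨_, u, hu, rfl⟩ v hv
  exact hW ⟨u, hu⟩ v hv

lemma Stable.irr {G : Type} [Group G] {A : GRep Ω G} (h : Stable A) :
    IsIrreducible A :=
  ⟨(h ⊤ inferInstance).1, h.sirr.irr⟩

/-- the restriction of a stably irreducible member to a finite extension -/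
lemma mem_res (h𝓒 : SheafClass p 𝓒) {K K' : Type} [Field K] [Field K'] [Algebra K K']
    [FiniteDimensional K K'] [CharP K p] {r : Gal K' →* Gal K} (hr : IsRes K K' r)
    {A : GRep Ω (Gal K)} (hA : 𝓒 K A) (hst : Stable A) :
    𝓒 K' (A.res r) ∧ Stable (A.res r) :=
  ⟨h𝓒.restrict K K' r hr A _ hA (hst.res hr.finiteIndex).irr (isSubquotient_refl _),
    hst.res hr.finiteIndex⟩

/-- if a stably irreducible member is scalar on the geometric generic fibre, it is in the class -/
lemma mem_of_scalar (h𝓒 : SheafClass p 𝓒) (h𝓖 : Closed p 𝓖) (hd : UpTo p d 𝓒 𝓖)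
    {K L : Type} [Field K] [Field L] [Algebra L K] (hL : FGD p d L)
    (hK : (⊤ : IntermediateField L K).FG) {r : Gal K →* Gal L} (hr : IsRes L K r)
    {A : GRep Ω (Gal K)} (hA : 𝓒 K A) (hsc : Scalar A r.ker) :
    𝓖 K A := by
  have : CharP L p := hL.charP
  have : CharP K p := charP_ext (K := L) p
  obtain ⟨L', _, _, K', _, _, _, s, t, B', hL', hK', hs, ht, hB', hsub⟩ :=
    h𝓒.base L K hK r hr A hA hsc
  have : CharP L' p := charP_ext (K := L) p
  exact h𝓖.descend K K' fg_finite s hs A (B'.res t) (h𝓒.irr K A hA)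
    (h𝓒.irr L' B' hB').2.1 hsub
    (h𝓖.restrict L' K' t B' ht (upTo_apply hd (hL.finite L') hB'))

lemma factor_equivariant {G G' : Type} [Group G] [Group G'] {r : G' →* G} {V : Type}
    [AddCommGroup V] [Module Ω V] {ρ : Representation Ω G V} {S T : Type} [AddCommGroup S]
    [Module Ω S] [AddCommGroup T] [Module Ω T] (φ : V ≃ₗ[Ω] S ⊗[Ω] T) {B C : GRep Ω G'}
    (e : S ≃ₗ[Ω] B.V) (f : T ≃ₗ[Ω] C.V) (hφ : ∀ g v, φ (ρ (r g) v) =
      TensorProduct.map (conjRep e B.ρ g) (conjRep f C.ρ g) (φ v)) (g : G') (v : V) :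
    (φ.trans (TensorProduct.congr e f)) (ρ (r g) v) =
      tprod B.ρ C.ρ g ((φ.trans (TensorProduct.congr e f)) v) := by
  change TensorProduct.congr e f (φ (ρ (r g) v)) = TensorProduct.map (B.ρ g) (C.ρ g)
    (TensorProduct.congr e f (φ v))
  rw [hφ]
  have key : (TensorProduct.congr e f).toLinearMap ∘ₗ
      TensorProduct.map (conjRep e B.ρ g) (conjRep f C.ρ g) =
      TensorProduct.map (B.ρ g) (C.ρ g) ∘ₗ (TensorProduct.congr e f).toLinearMap := by
    refine TensorProduct.ext' fun x y => ?_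
    simp only [LinearMap.comp_apply, LinearEquiv.coe_coe, TensorProduct.map_tmul,
      TensorProduct.congr_tmul, conjRep_apply]
  exact congrArg (fun F => F (φ v)) key

/-- if the two factors of a tensor decomposition over a finite extension are in the class -/
lemma mem_of_factors (h𝓖 : Closed p 𝓖) {K K' : Type} [Field K] [Field K'] [Algebra K K']
    [FiniteDimensional K K'] [CharP K p] {r : Gal K' →* Gal K} (hr : IsRes K K' r)
    {A : GRep Ω (Gal K)} (hA : IsIrreducible A) {S T : Type} [AddCommGroup S] [Module Ω S]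
    [AddCommGroup T] [Module Ω T] (φ : A.V ≃ₗ[Ω] S ⊗[Ω] T) {B C : GRep Ω (Gal K')}
    (e : S ≃ₗ[Ω] B.V) (f : T ≃ₗ[Ω] C.V) (hφ : ∀ g v, φ (A.ρ (r g) v) =
      TensorProduct.map (conjRep e B.ρ g) (conjRep f C.ρ g) (φ v)) (hσ : 𝓖 K' B) (hτ : 𝓖 K' C) :
    𝓖 K A := by
  have : CharP K' p := charP_ext (K := K) p
  refine h𝓖.descend K K' fg_finite r hr A (A.res r) hA hA.2.1 (isSubquotient_refl _) ?_
  refine h𝓖.sub K' _ _ ?_ (h𝓖.tensor K' _ _ hσ hτ)
  rw [isSubquotient_iff]
  exact Occ.of_iso ⟨φ.trans (TensorProduct.congr e f), fun g v => factor_equivariant φ e f hφ g v⟩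

/-- the tensor decomposition of a stably irreducible member with commuting monodromies -/
theorem split_stable [IsAlgClosed Ω] (h𝓒 : SheafClass p 𝓒)
    {K L₁ L₂ : Type} [Field K] [CharP K p] [Field L₁] [Field L₂]
    {r₁ : Gal K →* Gal L₁} {r₂ : Gal K →* Gal L₂} {A : GRep Ω (Gal K)} (hA : 𝓒 K A)
    (hst : Stable A)
    (hcomm : ∀ g₁ ∈ r₁.ker, ∀ g₂ ∈ r₂.ker, ∀ v, A.map g₁ (A.map g₂ v) = A.map g₂ (A.map g₁ v)) :
    ∃ (K₂ : Type) (_ : Field K₂) (_ : Algebra K K₂) (r : Gal K₂ →* Gal K)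
      (B C : GRep Ω (Gal K₂)) (φ : A.V ≃ₗ[Ω] B.V ⊗[Ω] C.V),
      FiniteDimensional K K₂ ∧ IsRes K K₂ r ∧ 𝓒 K₂ B ∧ 𝓒 K₂ C ∧
      (∀ g v, φ (A.ρ (r g) v) = tprod B.ρ C.ρ g (φ v)) ∧
      Scalar C (r₁.comp r).ker ∧ Scalar B (r₂.comp r).ker := by
  classical
  have hAi := h𝓒.irr K A hA
  have : FiniteDimensional Ω A.V := hAi.1
  have hAnt : Nontrivial A.V := hAi.2.1
  -- an invariant subspace of minimal dimension over all finite extensions
  let P : ℕ → Prop := fun n => ∃ (K' : Type) (_ : Field K') (_ : Algebra K K')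
    (r' : Gal K' →* Gal K), FiniteDimensional K K' ∧ IsRes K K' r' ∧ ∃ S : Submodule Ω A.V,
      S ≠ ⊥ ∧ (∀ g ∈ (r₁.comp r').ker, ∀ v ∈ S, A.ρ (r' g) v ∈ S) ∧ Module.finrank Ω S = n
  have hP : ∃ n, P n := ⟨_, K, inferInstance, inferInstance, MonoidHom.id _, inferInstance,
    isRes_id K, ⊤, top_ne_bot, fun _ _ _ _ => trivial, rfl⟩
  obtain ⟨K', _, _, r', hfin', hr', S, hS0, hS, hSn⟩ := Nat.find_spec hP
  have hmin : ∀ n, P n → Module.finrank Ω S ≤ n := by
    intro n hn
    rw [hSn]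
    exact Nat.find_min' hP hn
  obtain ⟨hA', hst'⟩ := mem_res h𝓒 hr' hA hst
  let N : Subgroup (Gal K') := (r₁.comp r').ker
  have hN : N.Normal := inferInstance
  let ρ' : Representation Ω (Gal K') A.V := (A.res r').ρ
  have hSinv : ∀ n : N, ∀ v ∈ S, (Res N.subtype ρ') n v ∈ S := fun n v hv => hS n n.2 v hv
  let σ : Representation Ω N S := subRep (Res N.subtype ρ') S hSinv
  have hSnt : Nontrivial S := Submodule.nontrivial_iff_ne_bot.2 hS0
  have hσ : Irr σ := by
    refine ⟨hSnt, fun W hW => ?_⟩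
    by_cases hW0 : W = ⊥
    · exact Or.inl hW0
    · right
      have h1 := hmin _ ⟨K', inferInstance, inferInstance, r', hfin', hr', W.map S.subtype, by
          intro h
          apply hW0
          exact Submodule.map_injective_of_injective S.injective_subtype
            (by rw [h, Submodule.map_bot]), by
          rintro g hg _ ⟨w, hw, rfl⟩
          exact ⟨_, hW ⟨g, hg⟩ w hw, rfl⟩, rfl⟩
      rw [(Submodule.equivMapOfInjective S.subtype S.injective_subtype W).finrank_eq.symm] at h1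
      exact Submodule.eq_top_of_finrank_eq (le_antisymm (Submodule.finrank_le W) h1)
  obtain ⟨T, _, _, φ, E, _, π, α, β, hTfin, hTnt, hπ, hφ, hφN, -⟩ := exists_tensor (N := N)
    (ρ := ρ') hst'.sirr hσ (j := S.subtype) (fun n s => rfl) S.injective_subtype
  have : CharP K' p := charP_ext (K := K) p
  obtain ⟨K₂, _, _, r'', B, C, e, f, hfin₂, hr'', hB, hC, hφ₂⟩ := lift_apply h𝓒.lift hA' hst' hπ
    α β φ hφ
  let σ₂ : Representation Ω (Gal K₂) S := conjRep e B.ρ
  let τ₂ : Representation Ω (Gal K₂) T := conjRep f C.ρ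
  have : CharP K₂ p := charP_ext (K := K') p
  -- the elements over `L₁`
  have hscal : ∀ g (hg : r'' g ∈ N), ∃ c : Ω, (∀ t, τ₂ g t = c • t) ∧
      ∀ s, σ ⟨r'' g, hg⟩ s = c • σ₂ g s := by
    intro g hg
    refine scalar_of_map_eq ?_ ?_
    · intro a b hab
      have h1 := rho_inv' (ρ := σ₂) g a
      rw [hab, rho_inv'] at h1
      exact h1.symm
    · refine LinearMap.ext fun x => ?_
      obtain ⟨v, rfl⟩ := φ.surjective x
      exact (hφ₂ g v).symm.trans (hφN ⟨r'' g, hg⟩ v)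
  -- the algebra structures on `K₂`
  let _ : Algebra K K₂ := ((algebraMap K' K₂).comp (algebraMap K K')).toAlgebra
  have : IsScalarTower K K' K₂ := IsScalarTower.of_algebraMap_eq fun _ => rfl
  have hfinK₂ : FiniteDimensional K K₂ := Module.Finite.trans K' K₂
  have hs : IsRes K K₂ (r'.comp r'') := isRes_comp hr' hr''
  -- the first factor is irreducible on the elements over `L₁`
  have hirr : Irr (Res ((r₁.comp r').comp r'').ker.subtype σ₂) := by
    refine ⟨hSnt, fun W hW => ?_⟩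
    by_cases hW0 : W = ⊥
    · exact Or.inl hW0
    · right
      have h1 := hmin _ ⟨K₂, inferInstance, inferInstance, r'.comp r'', hfinK₂, hs,
          W.map S.subtype, by
          intro h
          apply hW0
          exact Submodule.map_injective_of_injective S.injective_subtype
            (by rw [h, Submodule.map_bot]), by
          rintro g hg _ ⟨w, hw, rfl⟩
          obtain ⟨c, -, hc⟩ := hscal g hg
          refine ⟨σ ⟨r'' g, hg⟩ w, ?_, rfl⟩
          rw [hc]
          exact W.smul_mem _ (hW ⟨g, hg⟩ w hw), rfl⟩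
      rw [(Submodule.equivMapOfInjective S.subtype S.injective_subtype W).finrank_eq.symm] at h1
      exact Submodule.eq_top_of_finrank_eq (le_antisymm (Submodule.finrank_le W) h1)
  refine ⟨K₂, inferInstance, inferInstance, r'.comp r'', B, C, φ.trans (TensorProduct.congr e f),
    hfinK₂, hs, hB, hC, fun g v => factor_equivariant (ρ := ρ') φ e f hφ₂ g v, ?_, ?_⟩
  · intro g hg
    obtain ⟨c, hc, -⟩ := hscal g hg
    refine ⟨c, fun w => ?_⟩
    obtain ⟨t, rfl⟩ := f.surjective w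
    have := hc t
    change C.ρ g (f t) = c • f t
    rw [← conjRep_apply f C.ρ g t, show conjRep f C.ρ g t = c • t from this, map_smul]
  · intro g₂ hg₂
    suffices hh : ∃ c : Ω, ∀ s, σ₂ g₂ s = c • s by
      obtain ⟨c, hc⟩ := hh
      refine ⟨c, fun w => ?_⟩
      obtain ⟨s, rfl⟩ := e.surjective w
      have := hc s
      change B.ρ g₂ (e s) = c • e s
      rw [← conjRep_apply e B.ρ g₂ s, show conjRep e B.ρ g₂ s = c • s from this, map_smul]
    refine schur hirr (e := σ₂ g₂) ?_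
    rintro ⟨g₁, hg₁⟩ s
    change σ₂ g₂ (σ₂ g₁ s) = σ₂ g₁ (σ₂ g₂ s)
    obtain ⟨c, hc, -⟩ := hscal g₁ hg₁
    obtain ⟨t₀, ht₀⟩ := exists_ne (0 : T)
    have hinj : ∀ g (t : T), t ≠ 0 → τ₂ g t ≠ 0 := by
      intro g t ht h0
      apply ht
      have := rho_inv' (ρ := τ₂) g t
      rw [h0, map_zero] at this
      exact this.symm
    have hc0 : c ≠ 0 := by
      intro h0
      apply hinj g₁ t₀ ht₀
      rw [hc, h0, zero_smul]
    have hcm : ∀ x, TensorProduct.map (σ₂ g₁) (τ₂ g₁) (TensorProduct.map (σ₂ g₂) (τ₂ g₂) x) =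
        TensorProduct.map (σ₂ g₂) (τ₂ g₂) (TensorProduct.map (σ₂ g₁) (τ₂ g₁) x) := by
      intro x
      obtain ⟨v, rfl⟩ := φ.surjective x
      have e1 : ∀ g (v : A.V), TensorProduct.map (σ₂ g) (τ₂ g) (φ v) =
          φ (A.map (r' (r'' g)) v) := fun g v => (hφ₂ g v).symm
      rw [e1, e1, e1, e1]
      congr 1
      exact hcomm (r' (r'' g₁)) hg₁ (r' (r'' g₂)) hg₂ v
    have key : (σ₂ g₁) ∘ₗ (σ₂ g₂) = (σ₂ g₂) ∘ₗ (σ₂ g₁) := by
      refine left_eq_of_map_eq (y := c • τ₂ g₂) (t := t₀) ?_ ?_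
      · exact smul_ne_zero hc0 (hinj g₂ t₀ ht₀)
      · intro s
        have h1 := hcm (s ⊗ₜ t₀)
        simp only [TensorProduct.map_tmul, hc, map_smul] at h1
        exact h1
    exact (congrArg (fun F => F s) key).symm

end Pool.Agent.L5helper68.FB
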