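import Pool.Agent.L5helper68.FB.Iso

/-!
# Tensor decomposition of a stably irreducible representation with respect to a normal subgroup
-/

set_option autoImplicit false

open Representation TensorProduct

namespace Pool.Agent.L5helper68.FB

open Pool.Agent.L5helper68.GD

variable {Ω : Type} [Field Ω] {G : Type} [Group G]
  {S V : Type} [AddCommGroup S] [Module Ω S] [AddCommGroup V] [Module Ω V]
  {N : Subgroup G} [hN : N.Normal] {σ : Representation Ω N S} {ρ : Representation Ω G V}

lemma mem_tw_one {c : S →ₗ[Ω] V} : c ∈ Tw N σ ρ 1 ↔ ∀ (n : N) s, c (σ n s) = ρ n (c s) := by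
  constructor
  · intro h n s; rw [h n s]; simp
  · intro h n s; rw [h n s]; simp

/-- the diagonal action on a power -/
def powRep (σ : Representation Ω N S) (ι : Type) : Representation Ω N (ι → S) where
  toFun n := LinearMap.pi fun i => σ n ∘ₗ LinearMap.proj i
  map_one' := by ext; simp
  map_mul' a b := by ext; simp

/-- Linearly independent homomorphisms from an irreducible representation are jointly injective. -/
lemma joint_injective [IsAlgClosed Ω] [FiniteDimensional Ω S] (hσ : Irr σ) {ι : Type} [Fintype ι]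
    (b : ι → S →ₗ[Ω] V) (hb : ∀ i, b i ∈ Tw N σ ρ 1) (hli : LinearIndependent Ω b) (s : ι → S)
    (hs : ∑ i, b i (s i) = 0) : s = 0 := by
  classical
  have hnt := hσ.1
  let K : Submodule Ω (ι → S) := LinearMap.ker (∑ i, b i ∘ₗ LinearMap.proj i)
  have hK : ∀ y, y ∈ K ↔ ∑ i, b i (y i) = 0 := by
    intro y
    rw [LinearMap.mem_ker]
    simp
  by_contra hne
  have hK0 : K ≠ ⊥ := by
    intro h
    have : s ∈ K := (hK s).2 hs
    rw [h, Submodule.mem_bot] at this
    exact hne this
  obtain ⟨K0, hK01, hK00, hK0, hmin⟩ := exists_irr_sub (powRep σ ι) K (by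
    intro n y hy
    rw [hK] at hy ⊢
    change ∑ i, b i (σ n (y i)) = 0
    have : ∀ i, b i (σ n (y i)) = ρ n (b i (y i)) := fun i => (mem_tw_one.1 (hb i)) n (y i)
    simp only [this]
    rw [← map_sum, hy, map_zero]) hK0
  obtain ⟨x, hx, hx0⟩ := Submodule.exists_mem_ne_zero_of_ne_bot hK00
  obtain ⟨i0, hi0⟩ : ∃ i, x i ≠ 0 := by
    by_contra h
    push Not at h
    exact hx0 (funext h)
  let p : K0 →ₗ[Ω] S := LinearMap.proj i0 ∘ₗ K0.subtype
  have hinj : Function.Injective p := by
    rw [injective_iff_map_eq_zero]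
    rintro ⟨y, hy⟩ hy0
    rcases hmin (K0 ⊓ LinearMap.ker (LinearMap.proj i0 : (ι → S) →ₗ[Ω] S)) inf_le_left (by
      rintro n z ⟨hz1, hz2⟩
      refine ⟨hK0 n z hz1, ?_⟩
      rw [SetLike.mem_coe, LinearMap.mem_ker] at hz2 ⊢
      change σ n (z i0) = 0
      rw [show z i0 = 0 from hz2, map_zero]) with h | h
    · have : y ∈ K0 ⊓ LinearMap.ker (LinearMap.proj i0 : (ι → S) →ₗ[Ω] S) := ⟨hy, hy0⟩
      rw [h, Submodule.mem_bot] at this
      exact Subtype.ext this
    · exfalso
      have : x ∈ K0 ⊓ LinearMap.ker (LinearMap.proj i0 : (ι → S) →ₗ[Ω] S) := by rw [h]; exact hx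
      exact hi0 this.2
  have hsurj : Function.Surjective p := by
    rw [← LinearMap.range_eq_top]
    rcases hσ.2 (LinearMap.range p) (by
      rintro n _ ⟨y, rfl⟩
      exact ⟨⟨_, hK0 n y y.2⟩, rfl⟩) with h | h
    · exfalso
      have : p ⟨x, hx⟩ ∈ LinearMap.range p := ⟨_, rfl⟩
      rw [h, Submodule.mem_bot] at this
      exact hi0 this
    · exact h
  let P := LinearEquiv.ofBijective p ⟨hinj, hsurj⟩
  have hP : ∀ (n : N) (y : K0), P ⟨powRep σ ι n y, hK0 n y y.2⟩ = σ n (P y) := fun n y => rfl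
  have hPs : ∀ (n : N) (t : S), P.symm (σ n t) = ⟨powRep σ ι n (P.symm t), hK0 n _ (P.symm t).2⟩ := by
    intro n t
    rw [LinearEquiv.symm_apply_eq, hP, LinearEquiv.apply_symm_apply]
  have hscal : ∀ i, ∃ c : Ω, ∀ t, (P.symm t : ι → S) i = c • t := by
    intro i
    refine schur hσ (e := LinearMap.proj i ∘ₗ K0.subtype ∘ₗ P.symm.toLinearMap) ?_
    intro n t
    change (P.symm (σ n t) : ι → S) i = σ n ((P.symm t : ι → S) i)
    rw [hPs]
    rfl
  choose c hc using hscal
  have hsum : ∑ i, c i • b i = 0 := by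
    ext t
    have h1 : (P.symm t : ι → S) ∈ K := hK01 (P.symm t).2
    rw [hK] at h1
    simp only [hc, map_smul] at h1
    simpa using h1
  have hc0 := Fintype.linearIndependent_iff.1 hli c hsum i0
  have h2 : (P.symm (x i0) : ι → S) i0 = x i0 := P.apply_symm_apply (x i0)
  rw [hc, hc0, zero_smul] at h2
  exact hi0 h2.symm

/-- the evaluation -/
noncomputable def ev (N : Subgroup G) (σ : Representation Ω N S) (ρ : Representation Ω G V) :
    S ⊗[Ω] (Tw N σ ρ 1) →ₗ[Ω] V :=
  TensorProduct.lift (Tw N σ ρ 1).subtype.flip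

@[simp] lemma ev_tmul (s : S) (b : Tw N σ ρ 1) : ev N σ ρ (s ⊗ₜ b) = b.1 s := rfl

lemma ev_injective [IsAlgClosed Ω] [FiniteDimensional Ω S] [FiniteDimensional Ω V] (hσ : Irr σ) :
    Function.Injective (ev N σ ρ) := by
  classical
  let T := Tw N σ ρ 1
  let bT := Module.finBasis Ω T
  let E := TensorProduct.equivFinsuppOfBasisRight (M := S) bT
  rw [injective_iff_map_eq_zero]
  intro x hx
  obtain ⟨y, rfl⟩ := E.symm.surjective x
  have h1 : E.symm y = ∑ i, y i ⊗ₜ[Ω] bT i := by
    rw [TensorProduct.equivFinsuppOfBasisRight_symm_apply]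
    exact Finsupp.sum_fintype _ _ (fun i => by simp)
  have h2 : ∑ i, (bT i).1 (y i) = 0 := by
    rw [h1, map_sum] at hx
    exact hx
  have hli : LinearIndependent Ω (fun i => (bT i).1) :=
    bT.linearIndependent.map' T.subtype (Submodule.ker_subtype _)
  have h3 := joint_injective hσ (fun i => (bT i).1) (fun i => (bT i).2) hli (fun i => y i) h2
  have h4 : y = 0 := by
    ext i
    exact congrFun h3 i
  rw [h4, map_zero]

/-- the extension of `G` that acts on `σ` -/
def extGroup (N : Subgroup G) [hN : N.Normal] (σ : Representation Ω N S) :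
    Subgroup (G × (S ≃ₗ[Ω] S)) where
  carrier := {x | ∀ (n : N) s, x.2 (σ n s) = σ ⟨x.1 * n * x.1⁻¹, hN.conj_mem n.1 n.2 x.1⟩ (x.2 s)}
  one_mem' := by
    intro n s
    change σ n s = σ _ s
    congr 2
    apply Subtype.ext
    simp
  mul_mem' := by
    intro x y hx hy n s
    change x.2 (y.2 (σ n s)) = σ _ (x.2 (y.2 s))
    rw [hy n s, hx]
    congr 2
    apply Subtype.ext
    simp only [Prod.fst_mul, mul_inv_rev, mul_assoc]
  inv_mem' := by
    intro x hx n s
    change x.2.symm (σ n s) = σ _ (x.2.symm s)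
    rw [LinearEquiv.symm_apply_eq, hx, LinearEquiv.apply_symm_apply]
    congr 2
    apply Subtype.ext
    simp only [Prod.fst_inv, inv_inv]
    group

/-- the action of the extension on `σ` -/
def extLeft (N : Subgroup G) [N.Normal] (σ : Representation Ω N S) :
    Representation Ω (extGroup N σ) S where
  toFun x := x.1.2.toLinearMap
  map_one' := rfl
  map_mul' _ _ := rfl

/-- the action of the extension on the homomorphisms -/
def extRight (N : Subgroup G) [hN : N.Normal] (σ : Representation Ω N S) (ρ : Representation Ω G V) :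
    Representation Ω (extGroup N σ) (Tw N σ ρ 1) where
  toFun x :=
    { toFun := fun b => ⟨ρ x.1.1 ∘ₗ b.1 ∘ₗ x.1.2.symm.toLinearMap, by
        rw [mem_tw_one]
        intro n s
        change ρ x.1.1 (b.1 (x.1.2.symm (σ n s))) = ρ n (ρ x.1.1 (b.1 (x.1.2.symm s)))
        have h1 : x.1.2.symm (σ n s) = σ (cj x.1.1 n) (x.1.2.symm s) := by
          rw [LinearEquiv.symm_apply_eq, x.2, LinearEquiv.apply_symm_apply]
          congr 2
          apply Subtype.ext
          simp only [cj]
          group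
        rw [h1, mem_tw_one.1 b.2, ← rho_mul, ← rho_mul]
        congr 2
        simp only [cj]
        group⟩
      map_add' := fun b b' => by
        apply Subtype.ext
        ext s
        simp
      map_smul' := fun t b => by
        apply Subtype.ext
        ext s
        simp }
  map_one' := by
    ext b : 1
    apply Subtype.ext
    ext s
    change ρ 1 (b.1 s) = b.1 s
    rw [map_one]; rfl
  map_mul' x y := by
    ext b : 1
    apply Subtype.ext
    ext s
    change ρ (x.1.1 * y.1.1) (b.1 (y.1.2.symm (x.1.2.symm s))) = ρ x.1.1 (ρ y.1.1 _)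
    rw [rho_mul]
    rfl

/-- **Tensor decomposition.** -/
theorem exists_tensor [IsAlgClosed Ω] [FiniteDimensional Ω S] [FiniteDimensional Ω V]
    (hρ : SIrr ρ) (hσ : Irr σ) {j : S →ₗ[Ω] V} (hj : ∀ (n : N) s, j (σ n s) = ρ n (j s))
    (hj0 : Function.Injective j) :
    ∃ (T : Type) (_ : AddCommGroup T) (_ : Module Ω T) (φ : V ≃ₗ[Ω] S ⊗[Ω] T)
      (E : Type) (_ : Group E) (π : E →* G) (α : Representation Ω E S) (β : Representation Ω E T),
      FiniteDimensional Ω T ∧ Nontrivial T ∧ Function.Surjective π ∧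
      (∀ x v, φ (ρ (π x) v) = TensorProduct.map (α x) (β x) (φ v)) ∧
      (∀ (n : N) v, φ (ρ n v) = TensorProduct.map (σ n) LinearMap.id (φ v)) ∧
      (Module.finrank Ω T = 1 → Function.Surjective j) := by
  have hnt := hσ.1
  have hj1 : j ∈ Tw N σ ρ 1 := mem_tw_one.2 hj
  have hjne : j ≠ 0 := by
    intro h
    obtain ⟨s, hs⟩ := exists_ne (0 : S)
    apply hs
    apply hj0
    rw [h, map_zero, LinearMap.zero_apply]
  have htop : I N σ ρ 1 = ⊤ := I_one_eq_top hρ hσ hj1 hjne
  have htop' : ∀ g, I N σ ρ g = ⊤ := by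
    intro g
    have := map_I (N := N) (σ := σ) (ρ := ρ) 1 g
    rw [mul_one, htop] at this
    rw [← this, Submodule.map_top, LinearMap.range_eq_top]
    exact fun v => ⟨ρ g⁻¹ v, rho_inv g v⟩
  -- the conjugates of `σ` are isomorphic to `σ`
  have hα : ∀ g : G, ∃ a : S ≃ₗ[Ω] S, (g, a) ∈ extGroup N σ := by
    intro g
    have hT : Inv N.subtype ρ (LinearMap.range j) := inv_range hj1
    obtain ⟨c, e, he, hi, hr⟩ := exists_embedding (σ := σ) hρ.irr hσ hT
      (fun h => hjne (LinearMap.range_eq_bot.1 h)) (by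
        intro W hW hWi
        rcases hσ.2 (W.comap j) (by
          intro n s hs
          change j (σ n s) ∈ W
          rw [hj]
          exact hWi n _ hs) with h | h
        · left
          rw [eq_bot_iff]
          intro w hw
          obtain ⟨s, rfl⟩ := hW hw
          have : s ∈ W.comap j := hw
          rw [h, Submodule.mem_bot] at this
          rw [this, map_zero]
          exact Submodule.zero_mem _
        · right
          refine le_antisymm hW ?_
          rintro _ ⟨s, rfl⟩
          have : s ∈ W.comap j := by rw [h]; trivial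
          exact this)
      (fun _ : Tw N σ ρ g => g) (fun c => c.1) (fun c => c.2) (by
        have : (⨆ c : Tw N σ ρ g, LinearMap.range c.1) = ⊤ := htop' g
        rw [this]
        exact le_top)
    let E := LinearEquiv.ofInjective e hi
    let E' := LinearEquiv.ofInjective j hj0
    let a : S ≃ₗ[Ω] S := (E.trans (LinearEquiv.ofEq _ _ hr)).trans E'.symm
    have ha : ∀ s, j (a s) = e s := by
      intro s
      change ((E' (E'.symm _) : LinearMap.range j) : V) = _
      rw [LinearEquiv.apply_symm_apply]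
      rfl
    refine ⟨a, fun n s => ?_⟩
    apply hj0
    change j (a (σ n s)) = j (σ _ (a s))
    rw [hj, ha, ha, he]
  let T := Tw N σ ρ 1
  have hbij : Function.Bijective (ev N σ ρ) := by
    refine ⟨ev_injective hσ, ?_⟩
    rw [← LinearMap.range_eq_top, eq_top_iff, ← htop]
    refine iSup_le fun c => ?_
    rintro _ ⟨s, rfl⟩
    exact ⟨s ⊗ₜ c, rfl⟩
  let E := LinearEquiv.ofBijective (ev N σ ρ) hbij
  have key : ∀ x : extGroup N σ, ρ x.1.1 ∘ₗ ev N σ ρ =
      ev N σ ρ ∘ₗ TensorProduct.map (extLeft N σ x) (extRight N σ ρ x) := by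
    intro x
    refine TensorProduct.ext' fun s b => ?_
    change ρ x.1.1 (b.1 s) = ρ x.1.1 (b.1 (x.1.2.symm (x.1.2 s)))
    rw [LinearEquiv.symm_apply_apply]
  have key' : ∀ n : N, ρ n ∘ₗ ev N σ ρ = ev N σ ρ ∘ₗ TensorProduct.map (σ n) LinearMap.id := by
    intro n
    refine TensorProduct.ext' fun s b => ?_
    exact (mem_tw_one.1 b.2 n s).symm
  refine ⟨T, inferInstance, inferInstance, E.symm, extGroup N σ, inferInstance,
    (MonoidHom.fst G (S ≃ₗ[Ω] S)).comp (extGroup N σ).subtype, extLeft N σ, extRight N σ ρ,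
    inferInstance, ?_, ?_, ?_, ?_, ?_⟩
  · refine ⟨⟨⟨j, hj1⟩, 0, fun h => hjne (congrArg Subtype.val h)⟩⟩
  · intro g
    obtain ⟨a, ha⟩ := hα g
    exact ⟨⟨(g, a), ha⟩, rfl⟩
  · intro x v
    obtain ⟨y, rfl⟩ := E.surjective v
    rw [LinearEquiv.symm_apply_apply, LinearEquiv.symm_apply_eq]
    exact congrArg (fun f => f y) (key x)
  · intro n v
    obtain ⟨x, rfl⟩ := E.surjective v
    rw [LinearEquiv.symm_apply_apply, LinearEquiv.symm_apply_eq]
    exact congrArg (fun f => f x) (key' n)
  · intro h1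
    -- every homomorphism is a multiple of `j`
    have h2 : ∀ c : T, ∃ t : Ω, t • (⟨j, hj1⟩ : T) = c :=
      (finrank_eq_one_iff_of_nonzero' (⟨j, hj1⟩ : T)
        (fun h => hjne (congrArg Subtype.val h))).1 h1
    rw [← LinearMap.range_eq_top, eq_top_iff, ← htop]
    refine iSup_le fun c => ?_
    rintro _ ⟨s, rfl⟩
    obtain ⟨t, rfl⟩ := h2 c
    exact ⟨t • s, by simp⟩

end Pool.Agent.L5helper68.FB
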