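import Pool.Agent.L5helper68.GD.Fn
import Pool.Agent.L5helper68.FB.Tensor

/-!
# Sheaf classes, closed classes and primitive representations
-/

set_option autoImplicit false

open Representation TensorProduct Pool.Agent.L5helper68.GD

namespace Pool.Agent.L5helper68.FB

variable {Ω : Type} [Field Ω]

/-- `A` is irreducible on every subgroup of finite index. -/
def Stable {G : Type} [Group G] (A : GRep Ω G) : Prop :=
  ∀ U : Subgroup G, U.FiniteIndex → IsIrreducible (A.res U.subtype)

/-- The elements of `N` act by scalars on `A`. -/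
def Scalar {G : Type} [Group G] (A : GRep Ω G) (N : Subgroup G) : Prop :=
  ∀ g ∈ N, ∃ c : Ω, ∀ v, A.map g v = c • v

/-- In characteristic `p`, the class `𝓖` is closed under subquotients, tensor products, restriction to
arbitrary extension fields, and descent along finitely generated extensions. -/
structure Closed (p : ℕ) (𝓖 : Cls Ω) : Prop where
  /-- subquotients -/
  sub : ∀ (K : Type) [Field K] [CharP K p] (A B : GRep Ω (Gal K)), IsSubquotient B A → 𝓖 K A →
    𝓖 K B
  /-- tensor products -/
  tensor : ∀ (K : Type) [Field K] [CharP K p] (A B : GRep Ω (Gal K)), 𝓖 K A → 𝓖 K B →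
    𝓖 K (A.tensor B)
  /-- restriction -/
  restrict : ∀ (K M : Type) [Field K] [Field M] [Algebra K M] [CharP K p] (r : Gal M →* Gal K)
    (A : GRep Ω (Gal K)), IsRes K M r → 𝓖 K A → 𝓖 M (A.res r)
  /-- An irreducible representation of the Galois group of `K` is in the class if a nonzero subquotient
  of its restriction to a finitely generated extension `M` of `K` is in the class. -/
  descend : ∀ (K M : Type) [Field K] [Field M] [Algebra K M] [CharP K p],
    (⊤ : IntermediateField K M).FG → ∀ r : Gal M →* Gal K, IsRes K M r →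
    ∀ (A : GRep Ω (Gal K)) (B : GRep Ω (Gal M)), IsIrreducible A → Nontrivial B.V →
      IsSubquotient B (A.res r) → 𝓖 M B → 𝓖 K A

/-- **Lifting of projective tensor factors.** Let `A` be a stably irreducible member over `K`, and
suppose that the pull-back of `A` to some group `E` that maps onto the Galois group of `K` is a tensor
product `S ⊗ T`. Then over some finite extension `K'` of `K` the factors are members of the class up to
characters: there are members `B`, `C` over `K'`, a group `D` that maps to `E` and onto the Galois group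
of `K'` (compatibly), and a character `ψ` of `D`, such that `S = B ⊗ ψ` and `T = C ⊗ ψ⁻¹` on `D`. -/
def Lift (p : ℕ) (𝓒 : Cls Ω) : Prop :=
  ∀ (K : Type) [Field K] [CharP K p] (A : GRep Ω (Gal K)), 𝓒 K A → Stable A →
    ∀ (E : Type) [Group E] (π : E →* Gal K) (S T : GRep Ω E), Function.Surjective π →
      IsIso (S.tensor T) (A.res π) →
    ∃ (K' : Type) (_ : Field K') (_ : Algebra K K') (r : Gal K' →* Gal K) (B C : GRep Ω (Gal K'))
      (D : Type) (_ : Group D) (a : D →* E) (s : D →* Gal K') (ψ : D →* Ωˣ),
      FiniteDimensional K K' ∧ IsRes K K' r ∧ 𝓒 K' B ∧ 𝓒 K' C ∧ Function.Surjective s ∧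
      π.comp a = r.comp s ∧ IsIso (S.res a) ((B.res s).twist ψ 1) ∧
      IsIso (T.res a) ((C.res s).twist ψ (-1))

/-- **Members that are scalar over the base come from the base.** Let `K` be finitely generated over
`L` and let `A` be a member over `K`. If the elements of the Galois group of `K` that fix the algebraic
closure of `L` act by scalars on `A`, then there are finite extensions `K'` of `K` and `L'` of `L`, with
`L'` embedded into `K'`, such that `A` has over `K'` a subquotient that comes from a member over `L'`. -/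
def Base (p : ℕ) (𝓒 : Cls Ω) : Prop :=
  ∀ (L K : Type) [Field L] [Field K] [Algebra L K] [CharP L p],
    (⊤ : IntermediateField L K).FG → ∀ r : Gal K →* Gal L, IsRes L K r →
    ∀ A : GRep Ω (Gal K), 𝓒 K A → Scalar A r.ker →
    ∃ (L' : Type) (_ : Field L') (_ : Algebra L L') (K' : Type) (_ : Field K') (_ : Algebra K K')
      (_ : Algebra L' K') (s : Gal K' →* Gal K) (t : Gal K' →* Gal L') (B : GRep Ω (Gal L')),
      FiniteDimensional L L' ∧ FiniteDimensional K K' ∧ IsRes K K' s ∧ IsRes L' K' t ∧ 𝓒 L' B ∧
      IsSubquotient (B.res t) (A.res s)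

/-- The properties of the class of the representations in the question that are used. -/
structure SheafClass (p : ℕ) (𝓒 : Cls Ω) : Prop where
  /-- The members are irreducible. -/
  irr : ∀ (K : Type) [Field K] [CharP K p] (A : GRep Ω (Gal K)), 𝓒 K A → IsIrreducible A
  /-- The irreducible subquotients of the restrictions of the members to finite extensions are
  members. -/
  restrict : ∀ (K K' : Type) [Field K] [Field K'] [Algebra K K'] [FiniteDimensional K K']
    [CharP K p] (r : Gal K' →* Gal K), IsRes K K' r →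
    ∀ (A : GRep Ω (Gal K)) (B : GRep Ω (Gal K')), 𝓒 K A → IsIrreducible B →
      IsSubquotient B (A.res r) → 𝓒 K' B
  /-- The irreducible subquotients of `Hom(A, B)` are members, if `A` and `B` are. -/
  hom : ∀ (K : Type) [Field K] [CharP K p] (A B C : GRep Ω (Gal K)), 𝓒 K A → 𝓒 K B →
    IsIrreducible C → IsSubquotient C ⟨A.V →ₗ[Ω] B.V, linHom A.ρ B.ρ⟩ → 𝓒 K C
  /-- Over some finite extension a member has a subquotient in the class that is irreducible on all
  subgroups of finite index. -/
  stable : ∀ (K : Type) [Field K] [CharP K p] (A : GRep Ω (Gal K)), 𝓒 K A →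
    ∃ (K' : Type) (_ : Field K') (_ : Algebra K K') (r : Gal K' →* Gal K) (B : GRep Ω (Gal K')),
      FiniteDimensional K K' ∧ IsRes K K' r ∧ 𝓒 K' B ∧ IsSubquotient B (A.res r) ∧
      Stable B
  /-- projective tensor factors lift -/
  lift : Lift p 𝓒
  /-- members that are scalar over the base come from the base -/
  base : Base p 𝓒

/-- Over the finitely generated fields of characteristic `p` and transcendence degree at most `d` all
members of `𝓒` are members of `𝓖`. -/
def UpTo (p d : ℕ) [Fact p.Prime] (𝓒 𝓖 : Cls Ω) : Prop :=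
  ∀ (K : Type) [Field K] [Algebra (ZMod p) K], (⊤ : IntermediateField (ZMod p) K).FG →
    Algebra.trdeg (ZMod p) K ≤ d → ∀ A : GRep Ω (Gal K), 𝓒 K A → 𝓖 K A

/-- **Primitive members.** Over every finite extension `K'` of `K` the representation is irreducible or
scalar on every normal subgroup of the Galois group, and it is irreducible on the group of the elements
that fix the algebraic closure of `L`, for every finitely generated subfield `L` of `K'` of
transcendence degree at most `d`. -/
def Primitive (p d : ℕ) [Fact p.Prime] (𝓒 : Cls Ω) : Cls Ω := fun K _ A =>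
  𝓒 K A ∧ ∀ (K' : Type) [Field K'] [Algebra K K'] [FiniteDimensional K K'] (r : Gal K' →* Gal K),
    IsRes K K' r →
    (∀ N : Subgroup (Gal K'), N.Normal →
      IsIrreducible ((A.res r).res N.subtype) ∨ Scalar (A.res r) N) ∧
    ∀ (L : Type) [Field L] [Algebra (ZMod p) L], (⊤ : IntermediateField (ZMod p) L).FG →
      Algebra.trdeg (ZMod p) L ≤ d → ∀ [Algebra L K'] (s : Gal K' →* Gal L), IsRes L K' s →
      IsIrreducible ((A.res r).res s.ker.subtype)

/-- **The criterion on the geometric generic fibre.** Let `A` be a member over a finitely generated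
field `K` and let `L` be a finitely generated subfield of transcendence degree at most `d` of a finite
extension `K'` of `K`. If `A` and some member `B` of both classes over `K'` have a common nonzero
subquotient on the group of the elements that fix the algebraic closure of `L`, then `A` is in `𝓖`. -/
def Fibre (p d : ℕ) [Fact p.Prime] (𝓒 𝓖 : Cls Ω) : Prop :=
  ∀ (K K' L : Type) [Field K] [Field K'] [Field L] [Algebra (ZMod p) K] [Algebra (ZMod p) L]
    [Algebra K K'] [Algebra L K'] [FiniteDimensional K K'],
    (⊤ : IntermediateField (ZMod p) K).FG → (⊤ : IntermediateField (ZMod p) L).FG →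
    Algebra.trdeg (ZMod p) L ≤ d → ∀ (r : Gal K' →* Gal K) (s : Gal K' →* Gal L),
    IsRes K K' r → IsRes L K' s → ∀ (A : GRep Ω (Gal K)) (B : GRep Ω (Gal K'))
    (T : GRep Ω s.ker), 𝓒 K A → 𝓒 K' B → 𝓖 K' B → Nontrivial T.V →
    IsSubquotient T ((A.res r).res s.ker.subtype) → IsSubquotient T (B.res s.ker.subtype) →
    𝓖 K A

/-- Over some finite extension of `K` the representation `A` has a subquotient `B₁ ⊗ B₂`, where `Bᵢ`
comes from a member over a finite extension of `Lᵢ`. -/
def Splits (𝓒 : Cls Ω) (K L₁ L₂ : Type) [Field K] [Field L₁] [Field L₂]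
    (A : GRep Ω (Gal K)) : Prop :=
  ∃ (K' L₁' L₂' : Type) (_ : Field K') (_ : Field L₁') (_ : Field L₂') (_ : Algebra K K')
    (_ : Algebra L₁ L₁') (_ : Algebra L₂ L₂') (_ : Algebra L₁' K') (_ : Algebra L₂' K')
    (r : Gal K' →* Gal K) (t₁ : Gal K' →* Gal L₁') (t₂ : Gal K' →* Gal L₂')
    (B₁ : GRep Ω (Gal L₁')) (B₂ : GRep Ω (Gal L₂')),
    FiniteDimensional K K' ∧ FiniteDimensional L₁ L₁' ∧ FiniteDimensional L₂ L₂' ∧
    IsRes K K' r ∧ IsRes L₁' K' t₁ ∧ IsRes L₂' K' t₂ ∧ 𝓒 L₁' B₁ ∧ 𝓒 L₂' B₂ ∧
    IsSubquotient ((B₁.res t₁).tensor (B₂.res t₂)) (A.res r)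

/-- **Commuting monodromies.** Let `A` be a member over a finitely generated field `K` and let `L₁`,
`L₂` be finitely generated subfields of a finite extension `K'` of `K`. If on `A` the elements that fix
the algebraic closure of `L₁` commute with those that fix the algebraic closure of `L₂`, then `A`
splits, and if the transcendence degrees of `L₁` and `L₂` are at most `d`, then `A` is in `𝓖`. -/
def Commuting (p d : ℕ) [Fact p.Prime] (𝓒 𝓖 : Cls Ω) : Prop :=
  ∀ (K K' L₁ L₂ : Type) [Field K] [Field K'] [Field L₁] [Field L₂]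
    [Algebra (ZMod p) K] [Algebra (ZMod p) L₁] [Algebra (ZMod p) L₂] [Algebra K K']
    [Algebra L₁ K'] [Algebra L₂ K'] [FiniteDimensional K K'],
    (⊤ : IntermediateField (ZMod p) K).FG → (⊤ : IntermediateField (ZMod p) L₁).FG →
    (⊤ : IntermediateField (ZMod p) L₂).FG → ∀ (r : Gal K' →* Gal K) (s₁ : Gal K' →* Gal L₁)
    (s₂ : Gal K' →* Gal L₂), IsRes K K' r → IsRes L₁ K' s₁ → IsRes L₂ K' s₂ →
    ∀ (A : GRep Ω (Gal K)), 𝓒 K A →
    (∀ g₁ ∈ s₁.ker, ∀ g₂ ∈ s₂.ker, (A.res r).map (g₁ * g₂) = (A.res r).map (g₂ * g₁)) →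
    Splits 𝓒 K' L₁ L₂ (A.res r) ∧
    (Algebra.trdeg (ZMod p) L₁ ≤ d → Algebra.trdeg (ZMod p) L₂ ≤ d → 𝓖 K A)

end Pool.Agent.L5helper68.FB
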