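import Pool.Agent.L5helper68.FB.Comm

/-!
# Reduction to primitive representations
-/

set_option autoImplicit false

open Representation TensorProduct Pool.Agent.L5helper68.GD

namespace Pool.Agent.L5helper68.FB

variable {Ω : Type} [Field Ω] {p d : ℕ} [Fact p.Prime] {𝓒 𝓖 : Cls Ω}

lemma Occ.finrank_le {G S V : Type} [Group G] [AddCommGroup S] [Module Ω S] [AddCommGroup V]
    [Module Ω V] [FiniteDimensional Ω V] {σ : Representation Ω G S} {ρ : Representation Ω G V}
    (h : Occ σ ρ) : Module.finrank Ω S ≤ Module.finrank Ω V := by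
  obtain ⟨U, -, F, hF, -⟩ := h
  have h1 : Module.finrank Ω S ≤ Module.finrank Ω U := by
    have h2 := LinearMap.finrank_range_le F
    rwa [LinearMap.range_eq_top.2 hF, finrank_top] at h2
  exact h1.trans (Submodule.finrank_le U)

lemma exists_scalar_of_finrank_one {S : Type} [AddCommGroup S] [Module Ω S]
    (h : Module.finrank Ω S = 1) (f : S →ₗ[Ω] S) : ∃ c : Ω, ∀ s, f s = c • s := by
  have hnt : Nontrivial S := Module.nontrivial_of_finrank_pos (R := Ω) (by omega)
  obtain ⟨s₀, hs₀⟩ := exists_ne (0 : S)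
  have h1 := (finrank_eq_one_iff_of_nonzero' s₀ hs₀).1 h
  obtain ⟨c, hc⟩ := h1 (f s₀)
  refine ⟨c, fun s => ?_⟩
  obtain ⟨t, rfl⟩ := h1 s
  rw [map_smul, ← hc, smul_comm]

/-- **Reduction to primitive representations.** -/
theorem primitive_aux [IsAlgClosed Ω] (h𝓒 : SheafClass p 𝓒) (h𝓖 : Closed p 𝓖)
    (hd : UpTo p d 𝓒 𝓖) {e : ℕ} (hP : UpTo p e (Primitive p d 𝓒) 𝓖) :
    ∀ (n : ℕ) (K : Type) [Field K], FGD p e K → ∀ A : GRep Ω (Gal K), 𝓒 K A →
      Module.finrank Ω A.V = n → 𝓖 K A := by
  intro n
  induction n using Nat.strong_induction_on with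
  | _ n ih =>
    intro K _ hK A hA hn
    have : CharP K p := hK.charP
    have hAi := h𝓒.irr K A hA
    have : FiniteDimensional Ω A.V := hAi.1
    obtain ⟨K₀, _, _, r₀, B, hfin, hr₀, hB, hBA, hst⟩ := h𝓒.stable K A hA
    have : CharP K₀ p := charP_ext (K := K) p
    have hK₀ : FGD p e K₀ := hK.finite K₀
    have hBfin : FiniteDimensional Ω B.V := hst.irr.1
    have hBnt : Nontrivial B.V := hst.irr.2.1
    refine h𝓖.descend K K₀ fg_finite r₀ hr₀ A B hAi hBnt hBA ?_
    by_contra hBG
    apply hBG
    refine upTo_apply hP hK₀ ⟨hB, ?_⟩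
    intro K' _ _ _ r hr
    have hK' : FGD p e K' := hK₀.finite K'
    have : CharP K' p := hK'.charP
    obtain ⟨hA', hst'⟩ := mem_res h𝓒 hr hB hst
    have hnot : ¬ 𝓖 K' (B.res r) := fun h => hBG (h𝓖.descend K₀ K' fg_finite r hr B _ hst.irr
      hBnt (isSubquotient_refl _) h)
    have hdim : Module.finrank Ω B.V ≤ n := by
      have h1 : Module.finrank Ω B.V ≤ Module.finrank Ω A.V :=
        Occ.finrank_le (ρ := Res r₀ A.ρ) (isSubquotient_iff.1 hBA)
      omega
    have key : ∀ N : Subgroup (Gal K'), N.Normal → IsIrreducible ((B.res r).res N.subtype) ∨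
        Scalar (B.res r) N := by
      intro N hN
      let ρ' : Representation Ω (Gal K') B.V := (B.res r).ρ
      obtain ⟨S, hS, hirr, -⟩ := exists_irr (Res N.subtype ρ')
      obtain ⟨T, _, _, φ, E, _, π, α, β, hTfin, hTnt, hπ, hφ, hφN, hsurj⟩ :=
        exists_tensor (N := N) (ρ := ρ') hst'.sirr hirr (j := S.subtype) (fun n s => rfl)
        S.injective_subtype
      have hSnt : Nontrivial S := hirr.1
      have hprod : Module.finrank Ω B.V = Module.finrank Ω S * Module.finrank Ω T := by
        rw [φ.finrank_eq]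
        exact Module.finrank_tensorProduct
      have hS1 : 0 < Module.finrank Ω S := Module.finrank_pos_iff.2 hSnt
      have hT1 : 0 < Module.finrank Ω T := Module.finrank_pos_iff.2 hTnt
      by_cases h1 : Module.finrank Ω T = 1
      · left
        have hStop : S = ⊤ := by
          rw [eq_top_iff]
          intro v _
          obtain ⟨s, rfl⟩ := hsurj h1 v
          exact s.2
        refine ⟨hBfin, hBnt, fun U hU => ?_⟩
        rcases hirr.2 (U.comap S.subtype) (fun g v hv => hU g v.1 hv) with h | h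
        · left
          rw [eq_bot_iff]
          intro u hu
          have hu' : u ∈ S := by rw [hStop]; trivial
          have : (⟨u, hu'⟩ : S) ∈ U.comap S.subtype := hu
          rw [h, Submodule.mem_bot] at this
          exact congrArg Subtype.val this
        · right
          rw [eq_top_iff]
          intro u _
          have hu' : u ∈ S := by rw [hStop]; trivial
          have : (⟨u, hu'⟩ : S) ∈ U.comap S.subtype := by rw [h]; trivial
          exact this
      by_cases h2 : Module.finrank Ω S = 1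
      · right
        intro g hg
        obtain ⟨c, hc⟩ := exists_scalar_of_finrank_one h2
          (subRep (Res N.subtype ρ') S hS ⟨g, hg⟩)
        refine ⟨c, fun v => ?_⟩
        apply φ.injective
        have h3 : φ ((B.res r).map g v) = _ := hφN ⟨g, hg⟩ v
        have h4 : subRep (Res N.subtype ρ') S hS ⟨g, hg⟩ = c • LinearMap.id :=
          LinearMap.ext hc
        rw [h3, h4, TensorProduct.map_smul_left, TensorProduct.map_id]
        exact (φ.map_smul c v).symm
      · exfalso
        obtain ⟨K₂, _, _, r₂, B', C', e', f', hfin₂, hr₂, hB', hC', hφ₂⟩ :=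
          lift_apply h𝓒.lift hA' hst' hπ α β φ hφ
        apply hnot
        have hlt1 : Module.finrank Ω S < n := by
          have : Module.finrank Ω S * 2 ≤ Module.finrank Ω S * Module.finrank Ω T :=
            Nat.mul_le_mul_left _ (by omega)
          omega
        have hlt2 : Module.finrank Ω T < n := by
          have : 2 * Module.finrank Ω T ≤ Module.finrank Ω S * Module.finrank Ω T :=
            Nat.mul_le_mul_right _ (by omega)
          omega
        exact mem_of_factors (A := B.res r) h𝓖 hr₂ hst'.irr φ e' f' hφ₂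
          (ih _ hlt1 K₂ (hK'.finite K₂) B' hB' e'.finrank_eq.symm)
          (ih _ hlt2 K₂ (hK'.finite K₂) C' hC' f'.finrank_eq.symm)
    refine ⟨key, ?_⟩
    intro L _ _ hLfg hLd _ s hs
    have hL : FGD p d L := ⟨inferInstance, hLfg, hLd⟩
    rcases key s.ker inferInstance with h | h
    · exact h
    · exact absurd (mem_of_scalar h𝓒 h𝓖 hd hL (hK'.fg hL) hs hA' h) hnot

theorem primitive_iff [IsAlgClosed Ω] (h𝓒 : SheafClass p 𝓒) (h𝓖 : Closed p 𝓖)
    (hd : UpTo p d 𝓒 𝓖) (e : ℕ) : UpTo p e (Primitive p d 𝓒) 𝓖 ↔ UpTo p e 𝓒 𝓖 := by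
  constructor
  · intro h K _ _ h1 h2 A hA
    exact primitive_aux h𝓒 h𝓖 hd h _ K ⟨inferInstance, h1, h2⟩ A hA rfl
  · intro h K _ _ h1 h2 A hA
    exact h K h1 h2 A hA.1

end Pool.Agent.L5helper68.FB
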