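import Pool.Agent.L5helper68.FB.Struct
import Pool.Agent.L5helper68.FB.Prim

/-!
# The final forms
-/

set_option autoImplicit false

open Representation TensorProduct Pool.Agent.L5helper68.GD

namespace Pool.Agent.L5helper68.FB

variable {Ω : Type} [Field Ω] {p d : ℕ} [Fact p.Prime] {𝓒 𝓖 : Cls Ω}

lemma fgd_of_fg (K : Type) [Field K] [Algebra (ZMod p) K]
    (h : (⊤ : IntermediateField (ZMod p) K).FG) : ∃ e, FGD p e K := by
  have : Algebra.EssFiniteType (ZMod p) K := IntermediateField.fg_top_iff.1 h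
  obtain ⟨s, hs⟩ := exists_finset_isTranscendenceBasis (ZMod p) K
  refine ⟨s.card, inferInstance, h, ?_⟩
  have h1 := hs.cardinalMk_eq_trdeg
  rw [← h1]
  simp

theorem generic_final (h𝓒 : SheafClass p 𝓒) (h𝓖 : Closed p 𝓖) (hd : UpTo p d 𝓒 𝓖) :
    Fibre p d 𝓒 𝓖 := by
  intro K K' L _ _ _ _ _ _ _ _ hK hL htr r s hr hs A B T hA hB hBG hT hAT hBT
  obtain ⟨e, hKe⟩ := fgd_of_fg (p := p) K hK
  have : CharP K p := hKe.charP
  have hLd : FGD p d L := ⟨inferInstance, hL, htr⟩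
  exact genericFibre h𝓒 h𝓖 hd hLd ((hKe.finite K').fg hLd) hr hs hA hB hBG hT hAT hBT

theorem commuting_final [IsAlgClosed Ω] (h𝓒 : SheafClass p 𝓒) (h𝓖 : Closed p 𝓖)
    (hd : UpTo p d 𝓒 𝓖) : Commuting p d 𝓒 𝓖 := by
  intro K K' L₁ L₂ _ _ _ _ _ _ _ _ _ _ _ hK hL₁ hL₂ r s₁ s₂ hr hs₁ hs₂ A hA hcomm
  obtain ⟨e, hKe⟩ := fgd_of_fg (p := p) K hK
  obtain ⟨e₁, hLe₁⟩ := fgd_of_fg (p := p) L₁ hL₁
  obtain ⟨e₂, hLe₂⟩ := fgd_of_fg (p := p) L₂ hL₂
  have : CharP K p := hKe.charP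
  have : CharP K' p := (hKe.finite K').charP
  have : CharP L₁ p := hLe₁.charP
  have : CharP L₂ p := hLe₂.charP
  have hAi := h𝓒.irr K A hA
  have : FiniteDimensional Ω (A.res r).V := hAi.1
  have : Nontrivial (A.res r).V := hAi.2.1
  obtain ⟨W, hW, h1, h2⟩ := exists_irreducible (A.res r)
  have hC := h𝓒.restrict K K' r hr A _ hA h1 h2
  have h2' := isSubquotient_iff.1 h2
  obtain ⟨K'', L₁', L₂', _, _, _, _, _, _, _, _, r', t₁, t₂, B₁, B₂, f1, f2, f3, i1, i2, i3, c1, c2,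
    hsub⟩ := commuting_struct h𝓒 ((hKe.finite K').fg hLe₁) ((hKe.finite K').fg hLe₂) hs₁ hs₂ hC
      (fun g₁ hg₁ g₂ hg₂ => Occ.apply_eq h2' (hcomm g₁ hg₁ g₂ hg₂))
  have hsub' : IsSubquotient ((B₁.res t₁).tensor (B₂.res t₂)) ((A.res r).res r') := by
    rw [isSubquotient_iff] at hsub ⊢
    exact hsub.trans (h2'.res r')
  refine ⟨⟨K'', L₁', L₂', inferInstance, inferInstance, inferInstance, inferInstance, inferInstance,
    inferInstance, inferInstance, inferInstance, r', t₁, t₂, B₁, B₂, f1, f2, f3, i1, i2, i3, c1, c2,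
    hsub'⟩, ?_⟩
  intro htr₁ htr₂
  have hd₁ : FGD p d L₁ := ⟨inferInstance, hL₁, htr₁⟩
  have hd₂ : FGD p d L₂ := ⟨inferInstance, hL₂, htr₂⟩
  have : CharP K'' p := charP_ext (K := K') p
  have : CharP L₁' p := charP_ext (K := L₁) p
  have : CharP L₂' p := charP_ext (K := L₂) p
  have g1 : 𝓖 K'' (B₁.res t₁) := h𝓖.restrict L₁' K'' t₁ B₁ i2 (upTo_apply hd (hd₁.finite L₁') c1)
  have g2 : 𝓖 K'' (B₂.res t₂) := h𝓖.restrict L₂' K'' t₂ B₂ i3 (upTo_apply hd (hd₂.finite L₂') c2)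
  have n1 : Nontrivial (B₁.res t₁).V := (h𝓒.irr L₁' B₁ c1).2.1
  have n2 : Nontrivial (B₂.res t₂).V := (h𝓒.irr L₂' B₂ c2).2.1
  have n3 : Nontrivial ((B₁.res t₁).tensor (B₂.res t₂)).V := by
    have : FiniteDimensional Ω (B₁.res t₁).V := (h𝓒.irr L₁' B₁ c1).1
    have : FiniteDimensional Ω (B₂.res t₂).V := (h𝓒.irr L₂' B₂ c2).1
    refine Module.nontrivial_of_finrank_pos (R := Ω) ?_
    change 0 < Module.finrank Ω ((B₁.res t₁).V ⊗[Ω] (B₂.res t₂).V)
    rw [Module.finrank_tensorProduct]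
    exact Nat.mul_pos (Module.finrank_pos_iff.2 n1) (Module.finrank_pos_iff.2 n2)
  let _ : Algebra K K'' := ((algebraMap K' K'').comp (algebraMap K K')).toAlgebra
  have : IsScalarTower K K' K'' := IsScalarTower.of_algebraMap_eq fun _ => rfl
  have : FiniteDimensional K K'' := Module.Finite.trans K' K''
  exact h𝓖.descend K K'' fg_finite (r.comp r') (isRes_comp hr i1) A _ hAi n3 hsub'
    (h𝓖.tensor K'' _ _ g1 g2)

/-- geometric origin is a closed class -/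
theorem closed_go {H : Coh Ω} {χ : Cyc Ω} (hE : IsEtaleTheory p H χ) :
    Closed p (GO H χ) where
  sub := fun _ _ _ _ _ h1 h2 => go_sub h2 h1
  tensor := fun _ _ _ _ _ h1 h2 => go_tensor hE h1 h2
  restrict := fun _ _ _ _ _ _ _ _ h1 h2 => go_restrict hE h1 h2
  descend := fun _ _ _ _ _ _ hM _ hr _ _ hA hB hBA h => go_descend hE hM hr hA hB hBA h

end Pool.Agent.L5helper68.FB
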