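import Pool.Agent.L5helper68.GD.Cliff

/-!
# Restriction of a stably irreducible representation to a normal subgroup: tensor decomposition
-/

set_option autoImplicit false

open Representation TensorProduct

namespace Pool.Agent.L5helper68.FB

open Pool.Agent.L5helper68.GD

variable {Ω : Type} [Field Ω] {G : Type} [Group G]
  {S V : Type} [AddCommGroup S] [Module Ω S] [AddCommGroup V] [Module Ω V]

/-- Schur's lemma -/
lemma schur [IsAlgClosed Ω] {G : Type} [Group G] [FiniteDimensional Ω S]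
    {σ : Representation Ω G S} (hσ : Irr σ) {e : S →ₗ[Ω] S} (he : ∀ g s, e (σ g s) = σ g (e s)) :
    ∃ c : Ω, ∀ s, e s = c • s := by
  have := hσ.1
  obtain ⟨c, hc⟩ := Module.End.exists_eigenvalue e
  refine ⟨c, fun s => ?_⟩
  rcases hσ.2 (Module.End.eigenspace e c) (by
    intro g v hv
    rw [Module.End.mem_eigenspace_iff] at hv ⊢
    rw [he, hv, map_smul]) with h | h
  · exact absurd h hc
  · have : s ∈ Module.End.eigenspace e c := by rw [h]; trivial
    exact Module.End.mem_eigenspace_iff.1 this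

variable (N : Subgroup G) (σ : Representation Ω N S) (ρ : Representation Ω G V)

/-- the homomorphisms from the conjugate of `σ` by `g` to `V` -/
def Tw (g : G) : Submodule Ω (S →ₗ[Ω] V) where
  carrier := {c | ∀ (n : N) (s : S), c (σ n s) = ρ (g * n * g⁻¹) (c s)}
  add_mem' := by
    intro a b ha hb n s
    simp only [LinearMap.add_apply, map_add, ha n s, hb n s]
  zero_mem' := by intro n s; simp
  smul_mem' := by
    intro t a ha n s
    simp only [LinearMap.smul_apply, map_smul, ha n s]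

variable {N σ ρ}

lemma rho_mul (g h : G) (v : V) : ρ (g * h) v = ρ g (ρ h v) := by rw [map_mul]; rfl

lemma rho_inv (g : G) (v : V) : ρ g (ρ g⁻¹ v) = v := by
  rw [← rho_mul, mul_inv_cancel, map_one]; rfl

lemma rho_inv' (g : G) (v : V) : ρ g⁻¹ (ρ g v) = v := by
  rw [← rho_mul, inv_mul_cancel, map_one]; rfl

variable [hN : N.Normal]

lemma mem_tw {g : G} {c : S →ₗ[Ω] V} :
    c ∈ Tw N σ ρ g ↔ ∀ (n : N) (s : S), c (σ n s) = ρ (g * n * g⁻¹) (c s) := Iff.rfl

/-- the conjugate of an element of `N` -/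
def cj (g : G) (n : N) : N := ⟨g⁻¹ * n * g, by simpa using hN.conj_mem n.1 n.2 g⁻¹⟩

lemma tw_apply {g : G} {c : S →ₗ[Ω] V} (hc : c ∈ Tw N σ ρ g) (n : N) (s : S) :
    ρ n (c s) = c (σ (cj g n) s) := by
  rw [hc]
  congr 2
  simp only [cj]
  group

lemma tw_mul {g h : G} {c : S →ₗ[Ω] V} (hc : c ∈ Tw N σ ρ g) :
    (ρ h) ∘ₗ c ∈ Tw N σ ρ (h * g) := by
  intro n s
  change ρ h (c (σ n s)) = ρ (h * g * n * (h * g)⁻¹) (ρ h (c s))
  rw [hc, ← rho_mul, ← rho_mul]
  congr 2
  group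

variable (N σ ρ)

/-- the sum of all images of the conjugate of `σ` by `g` -/
def I (g : G) : Submodule Ω V := ⨆ c : Tw N σ ρ g, LinearMap.range c.1

variable {N σ ρ}

lemma range_le_I {g : G} {c : S →ₗ[Ω] V} (hc : c ∈ Tw N σ ρ g) : LinearMap.range c ≤ I N σ ρ g :=
  le_iSup (fun c : Tw N σ ρ g => LinearMap.range c.1) ⟨c, hc⟩

lemma map_I_le (g h : G) : (I N σ ρ g).map (ρ h) ≤ I N σ ρ (h * g) := by
  rw [I, Submodule.map_iSup]
  refine iSup_le fun c => ?_
  rw [← LinearMap.range_comp]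
  exact range_le_I (tw_mul c.2)

lemma map_I (g h : G) : (I N σ ρ g).map (ρ h) = I N σ ρ (h * g) := by
  refine le_antisymm (map_I_le g h) ?_
  intro v hv
  have h1 := map_I_le (h * g) h⁻¹ (N := N) (σ := σ) (ρ := ρ) ⟨v, hv, rfl⟩
  rw [inv_mul_cancel_left] at h1
  exact ⟨_, h1, rho_inv h v⟩

lemma inv_range {g : G} {c : S →ₗ[Ω] V} (hc : c ∈ Tw N σ ρ g) :
    Inv N.subtype ρ (LinearMap.range c) := by
  rintro n _ ⟨s, rfl⟩
  exact ⟨_, (tw_apply hc n s).symm⟩

lemma inv_iSup {ι : Sort*} {U : ι → Submodule Ω V} (h : ∀ i, Inv N.subtype ρ (U i)) :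
    Inv N.subtype ρ (⨆ i, U i) := by
  intro n v hv
  have h1 : (⨆ i, U i).map (ρ n) ≤ ⨆ i, U i := by
    rw [Submodule.map_iSup]
    refine iSup_mono fun i => ?_
    rintro _ ⟨u, hu, rfl⟩
    exact h i n u hu
  exact h1 ⟨v, hv, rfl⟩

lemma inv_I (g : G) : Inv N.subtype ρ (I N σ ρ g) := inv_iSup fun c => inv_range c.2

lemma range_normal : (N.subtype).range.Normal := by rwa [Subgroup.range_subtype]

/-- An irreducible subspace of a sum of images is one of the conjugates of `σ`. -/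
lemma exists_embedding (hρ : Irr ρ) [FiniteDimensional Ω V] (hσ : Irr σ) {T : Submodule Ω V}
    (hT : Inv N.subtype ρ T) (hT0 : T ≠ ⊥)
    (hmin : ∀ W : Submodule Ω V, W ≤ T → Inv N.subtype ρ W → W = ⊥ ∨ W = T)
    {ι : Sort*} (g : ι → G) (c : ι → S →ₗ[Ω] V) (hc : ∀ i, c i ∈ Tw N σ ρ (g i))
    (hle : T ≤ ⨆ i, LinearMap.range (c i)) :
    ∃ i, ∃ e ∈ Tw N σ ρ (g i), Function.Injective e ∧ LinearMap.range e = T := by
  obtain ⟨C, hC, hTC, htop⟩ := exists_compl (range_normal (N := N)) hρ hT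
  have hcompl : IsCompl T C := ⟨disjoint_iff.2 hTC, codisjoint_iff.2 htop⟩
  let π : V →ₗ[Ω] V := T.subtype ∘ₗ Submodule.projectionOnto T C hcompl
  have hπT : ∀ v ∈ T, π v = v := fun v hv => by
    change ((Submodule.projectionOnto T C hcompl (⟨v, hv⟩ : T) : T) : V) = v
    rw [Submodule.projectionOnto_apply_left]
  have hπC : ∀ v ∈ C, π v = 0 := fun v hv => by
    change ((Submodule.projectionOnto T C hcompl v : T) : V) = 0
    rw [(Submodule.projectionOnto_apply_eq_zero_iff hcompl).2 hv]; rfl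
  have hπr : ∀ v, π v ∈ T := fun v => (Submodule.projectionOnto T C hcompl v).2
  have hπN : ∀ (n : N) v, π (ρ n v) = ρ n (π v) := by
    intro n v
    have hv : v ∈ T ⊔ C := by rw [htop]; trivial
    obtain ⟨t, ht, w, hw, rfl⟩ := Submodule.mem_sup.1 hv
    have h1 : π (ρ n t) = ρ n t := hπT _ (hT n t ht)
    have h2 : π (ρ n w) = 0 := hπC _ (hC n w hw)
    rw [map_add, map_add, map_add, hπT t ht, hπC w hw, h1, h2, add_zero, add_zero]
  by_contra hall
  have hzero : ∀ i, π ∘ₗ c i = 0 := by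
    intro i
    by_contra hne
    apply hall
    have hmem : π ∘ₗ c i ∈ Tw N σ ρ (g i) := by
      intro n s
      change π (c i (σ n s)) = ρ _ (π (c i s))
      rw [hc i n s]
      exact hπN ⟨g i * n * (g i)⁻¹, hN.conj_mem n.1 n.2 _⟩ _
    refine ⟨i, π ∘ₗ c i, hmem, ?_, ?_⟩
    · rcases hσ.2 (LinearMap.ker (π ∘ₗ c i)) (by
        intro n s hs
        rw [LinearMap.mem_ker] at hs ⊢
        rw [hmem, hs, map_zero]) with h | h
      · exact LinearMap.ker_eq_bot.1 h
      · exact absurd (LinearMap.ker_eq_top.1 h) hne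
    · rcases hmin (LinearMap.range (π ∘ₗ c i)) (by rintro _ ⟨s, rfl⟩; exact hπr _)
        (inv_range hmem) with h | h
      · exact absurd (LinearMap.range_eq_bot.1 h) hne
      · exact h
  apply hT0
  rw [eq_bot_iff]
  intro t ht
  have h1 : (⨆ i, LinearMap.range (c i)) ≤ LinearMap.ker π := by
    refine iSup_le fun i => ?_
    rintro _ ⟨s, rfl⟩
    exact congrArg (fun f => f s) (hzero i)
  have h2 : π t = 0 := h1 (hle ht)
  rw [hπT t ht] at h2
  exact h2

lemma I_le_of_range_eq {g g' : G} {e e' : S →ₗ[Ω] V} (he : e ∈ Tw N σ ρ g)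
    (he' : e' ∈ Tw N σ ρ g') (hi : Function.Injective e) (hi' : Function.Injective e')
    (h : LinearMap.range e = LinearMap.range e') : I N σ ρ g ≤ I N σ ρ g' := by
  let E := LinearEquiv.ofInjective e hi
  let E' := LinearEquiv.ofInjective e' hi'
  let ψ : S ≃ₗ[Ω] S := (E.trans (LinearEquiv.ofEq _ _ h)).trans E'.symm
  have hψ : ∀ s, e' (ψ s) = e s := by
    intro s
    change ((E' (E'.symm _) : LinearMap.range e') : V) = _
    rw [LinearEquiv.apply_symm_apply]
    rfl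
  refine iSup_le fun c => ?_
  have hmem : c.1 ∘ₗ ψ.symm.toLinearMap ∈ Tw N σ ρ g' := by
    intro n s
    obtain ⟨t, rfl⟩ := ψ.surjective s
    -- the element `m = g' n g'⁻¹`
    let m : N := ⟨g' * n * g'⁻¹, hN.conj_mem n.1 n.2 _⟩
    have h1 : σ n (ψ t) = ψ (σ (cj g m) t) := by
      apply hi'
      rw [he', hψ, hψ, ← tw_apply he m t]
    change c.1 (ψ.symm (σ n (ψ t))) = ρ _ (c.1 (ψ.symm (ψ t)))
    rw [h1, LinearEquiv.symm_apply_apply, LinearEquiv.symm_apply_apply, ← tw_apply c.2 m t]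
  have h2 : LinearMap.range c.1 ≤ LinearMap.range (c.1 ∘ₗ ψ.symm.toLinearMap) := by
    rintro _ ⟨s, rfl⟩
    exact ⟨ψ s, by simp⟩
  exact h2.trans (range_le_I hmem)

/-- The different translates are independent. -/
lemma independent (hρ : Irr ρ) [FiniteDimensional Ω V] (hσ : Irr σ) :
    iSupIndep (fun x : Set.range (I N σ ρ) => (x : Submodule Ω V)) := by
  rintro ⟨_, g, rfl⟩
  rw [disjoint_iff]
  by_contra hne
  have hinv : Inv N.subtype ρ (⨆ (y : Set.range (I N σ ρ)) (_ : y ≠ ⟨_, g, rfl⟩),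
      (y : Submodule Ω V)) := by
    refine inv_iSup fun y => inv_iSup fun _ => ?_
    obtain ⟨_, g', rfl⟩ := y
    exact inv_I g'
  obtain ⟨T, hT1, hT0, hT, hmin⟩ := exists_irr_sub (Res N.subtype ρ) _
    (Inv.inf (inv_I g) hinv) hne
  obtain ⟨c, e, he, hi, hr⟩ := exists_embedding (σ := σ) hρ hσ hT hT0 hmin
    (fun _ : Tw N σ ρ g => g) (fun c => c.1) (fun c => c.2) (hT1.trans inf_le_left)
  have hle : T ≤ ⨆ i : (Σ g' : {g' : G // I N σ ρ g' ≠ I N σ ρ g}, Tw N σ ρ g'.1),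
      LinearMap.range i.2.1 := by
    refine (hT1.trans inf_le_right).trans ?_
    refine iSup_le fun y => iSup_le fun hy => ?_
    obtain ⟨_, g', rfl⟩ := y
    have hy' : I N σ ρ g' ≠ I N σ ρ g := fun h => hy (Subtype.ext h)
    refine iSup_le fun c => ?_
    exact le_iSup (fun i : (Σ g' : {g' : G // I N σ ρ g' ≠ I N σ ρ g}, Tw N σ ρ g'.1) =>
      LinearMap.range i.2.1) ⟨⟨g', hy'⟩, c⟩
  obtain ⟨⟨⟨g', hg'⟩, c'⟩, e', he', hi', hr'⟩ := exists_embedding (σ := σ) hρ hσ hT hT0 hmin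
    (fun i : (Σ g' : {g' : G // I N σ ρ g' ≠ I N σ ρ g}, Tw N σ ρ g'.1) => i.1.1)
    (fun i => i.2.1) (fun i => i.2.2) hle
  apply hg'
  exact le_antisymm (I_le_of_range_eq he' he hi' hi (hr'.trans hr.symm))
    (I_le_of_range_eq he he' hi hi' (hr.trans hr'.symm))

/-- the stabilizer of the isotypic component -/
def stab (N : Subgroup G) [N.Normal] (σ : Representation Ω N S) (ρ : Representation Ω G V) :
    Subgroup G where
  carrier := {h | I N σ ρ h = I N σ ρ 1}
  one_mem' := rfl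
  mul_mem' := by
    intro a b ha hb
    change I N σ ρ (a * b) = _
    rw [← map_I, show I N σ ρ b = _ from hb, map_I, mul_one]
    exact ha
  inv_mem' := by
    intro a ha
    change I N σ ρ a⁻¹ = _
    have : I N σ ρ 1 = I N σ ρ a := (show I N σ ρ a = _ from ha).symm
    rw [← mul_one a⁻¹, ← map_I, this, map_I, inv_mul_cancel]
    exact ha.symm ▸ rfl

lemma finiteIndex_stab (hρ : Irr ρ) [FiniteDimensional Ω V] (hσ : Irr σ) {j : S →ₗ[Ω] V}
    (hj : j ∈ Tw N σ ρ 1) (hj0 : j ≠ 0) : (stab N σ ρ).FiniteIndex := by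
  have hne : ∀ x : Set.range (I N σ ρ), (x : Submodule Ω V) ≠ ⊥ := by
    rintro ⟨_, g, rfl⟩ h
    apply hj0
    have h1 : LinearMap.range (ρ g ∘ₗ j) ≤ I N σ ρ g := by
      have := range_le_I (tw_mul (h := g) hj)
      rwa [mul_one] at this
    rw [show I N σ ρ g = ⊥ from h, le_bot_iff, LinearMap.range_eq_bot] at h1
    ext s
    have h2 : ρ g (j s) = 0 := congrArg (fun f => f s) h1
    have h3 := rho_inv' (ρ := ρ) g (j s)
    rw [h2, map_zero] at h3
    exact h3.symm
  have hfin : Finite (Set.range (I N σ ρ)) :=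
    WellFoundedGT.finite_of_iSupIndep (independent hρ hσ) hne
  let F : G ⧸ stab N σ ρ → Set.range (I N σ ρ) := fun q => ⟨I N σ ρ q.out, _, rfl⟩
  have hinj : Function.Injective F := by
    intro q q' h
    have h1 : I N σ ρ q.out = I N σ ρ q'.out := congrArg Subtype.val h
    have h2 : q.out⁻¹ * q'.out ∈ stab N σ ρ := by
      change I N σ ρ (q.out⁻¹ * q'.out) = _
      rw [← map_I, ← h1, map_I, inv_mul_cancel]
    rw [← QuotientGroup.eq] at h2
    simpa using h2
  have : Finite (G ⧸ stab N σ ρ) := Finite.of_injective F hinj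
  exact Subgroup.finiteIndex_of_finite_quotient

/-- the representation is irreducible on every subgroup of finite index -/
def SIrr (ρ : Representation Ω G V) : Prop :=
  ∀ U : Subgroup G, U.FiniteIndex → Irr (Res U.subtype ρ)

lemma SIrr.irr (h : SIrr ρ) : Irr ρ :=
  ⟨(h ⊤ inferInstance).1, fun U hU => (h ⊤ inferInstance).2 U fun g => hU g⟩

theorem I_one_eq_top (hρ : SIrr ρ) [FiniteDimensional Ω V] (hσ : Irr σ) {j : S →ₗ[Ω] V}
    (hj : j ∈ Tw N σ ρ 1) (hj0 : j ≠ 0) : I N σ ρ 1 = ⊤ := by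
  rcases (hρ _ (finiteIndex_stab hρ.irr hσ hj hj0)).2 (I N σ ρ 1) (by
    rintro ⟨g, hg⟩ v hv
    have h1 : I N σ ρ g = I N σ ρ 1 := hg
    have h2 : ρ g v ∈ (I N σ ρ 1).map (ρ g) := ⟨v, hv, rfl⟩
    rw [map_I, mul_one, h1] at h2
    exact h2) with h | h
  · exfalso
    apply hj0
    have := range_le_I hj
    rw [h, le_bot_iff, LinearMap.range_eq_bot] at this
    exact this
  · exact h

end Pool.Agent.L5helper68.FB
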