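import Pool.Agent.L5helper68.FB.Tools

/-!
# Geometric generic fibres, commuting monodromies, primitive representations
-/

set_option autoImplicit false

open Representation TensorProduct Pool.Agent.L5helper68.GD

namespace Pool.Agent.L5helper68.FB

variable {Ω : Type} [Field Ω] {p d : ℕ} [Fact p.Prime] {𝓒 𝓖 : Cls Ω}

lemma isSubquotient_refl {G : Type} [Group G] (A : GRep Ω G) : IsSubquotient A A :=
  isSubquotient_iff.2 (Occ.refl _)

lemma IsIrreducible.irr' {G : Type} [Group G] {A : GRep Ω G} (h : IsIrreducible A) : Irr A.ρ := h.2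

lemma fg_finite {K K' : Type} [Field K] [Field K'] [Algebra K K'] [FiniteDimensional K K'] :
    (⊤ : IntermediateField K K').FG := IntermediateField.fg_top K K'

/-! ### The geometric generic fibre -/

/-- the invariant homomorphisms -/
def invHom {G : Type} [Group G] (N : Subgroup G) {V W : Type} [AddCommGroup V] [Module Ω V]
    [AddCommGroup W] [Module Ω W] (ρ : Representation Ω G V) (ρ' : Representation Ω G W) :
    Submodule Ω (V →ₗ[Ω] W) where
  carrier := {h | ∀ n ∈ N, ∀ v, h (ρ n v) = ρ' n (h v)}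
  add_mem' := by
    intro a b ha hb n hn v
    simp only [LinearMap.add_apply, map_add, ha n hn v, hb n hn v]
  zero_mem' := by intro n _ v; simp
  smul_mem' := by
    intro t a ha n hn v
    simp only [LinearMap.smul_apply, map_smul, ha n hn v]

lemma exists_invHom {G : Type} [Group G] {N : Subgroup G} (hN : N.Normal) {T V W : Type}
    [AddCommGroup T] [Module Ω T] [AddCommGroup V] [Module Ω V] [FiniteDimensional Ω V]
    [AddCommGroup W] [Module Ω W] [FiniteDimensional Ω W] {ρ : Representation Ω G V}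
    {ρ' : Representation Ω G W} (hρ : Irr ρ) (hρ' : Irr ρ') {τ : Representation Ω N T}
    (hτ : Irr τ) (h : Occ τ (Res N.subtype ρ)) (h' : Occ τ (Res N.subtype ρ')) :
    ∃ f ∈ invHom N ρ ρ', f ≠ 0 := by
  have hr : N.subtype.range.Normal := by rwa [Subgroup.range_subtype]
  obtain ⟨j, hj, hje⟩ := exists_hom hr hρ hτ h
  obtain ⟨j', hj', hje'⟩ := exists_hom hr hρ' hτ h'
  have hinj : Function.Injective j := by
    rcases hτ.2 (LinearMap.ker j) (by
      intro n s hs
      rw [LinearMap.mem_ker] at hs ⊢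
      rw [hje, hs, map_zero]) with h | h
    · exact LinearMap.ker_eq_bot.1 h
    · exact absurd (LinearMap.ker_eq_top.1 h) hj
  have hinv : Inv N.subtype ρ (LinearMap.range j) := by
    rintro n _ ⟨s, rfl⟩
    exact ⟨_, hje n s⟩
  obtain ⟨C, hC, hTC, htop⟩ := exists_compl hr hρ hinv
  have hcompl : IsCompl (LinearMap.range j) C := ⟨disjoint_iff.2 hTC, codisjoint_iff.2 htop⟩
  let E := LinearEquiv.ofInjective j hinj
  let π : V →ₗ[Ω] T := E.symm.toLinearMap ∘ₗ Submodule.projectionOnto _ C hcompl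
  have hπj : ∀ t, π (j t) = t := by
    intro t
    change E.symm (Submodule.projectionOnto _ C hcompl (j t)) = t
    rw [LinearEquiv.symm_apply_eq]
    exact Submodule.projectionOnto_apply_left hcompl (E t)
  have hπC : ∀ v ∈ C, π v = 0 := fun v hv => by
    change E.symm (Submodule.projectionOnto _ C hcompl v) = 0
    rw [(Submodule.projectionOnto_apply_eq_zero_iff hcompl).2 hv, map_zero]
  have hπN : ∀ (n : N) v, π (ρ n v) = τ n (π v) := by
    intro n v
    have hv : v ∈ LinearMap.range j ⊔ C := by rw [htop]; trivial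
    obtain ⟨_, ⟨t, rfl⟩, w, hw, rfl⟩ := Submodule.mem_sup.1 hv
    have h1 : π (ρ n (j t)) = τ n t := by
      have := hπj (τ n t)
      rwa [hje] at this
    have h2 : π (ρ n w) = 0 := hπC _ (hC n w hw)
    rw [map_add, map_add, map_add, h1, h2, hπj, hπC w hw, add_zero, add_zero]
  refine ⟨j' ∘ₗ π, ?_, ?_⟩
  · intro n hn v
    change j' (π (ρ n v)) = ρ' n (j' (π v))
    rw [hπN ⟨n, hn⟩ v]
    exact hje' ⟨n, hn⟩ _
  · intro h0
    apply hj'
    ext t
    have := congrArg (fun f => f (j t)) h0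
    simpa [hπj] using this

/-- the version over `K` itself -/
theorem genericFibre_aux (h𝓒 : SheafClass p 𝓒) (h𝓖 : Closed p 𝓖) (hd : UpTo p d 𝓒 𝓖)
    {K L : Type} [Field K] [Field L] [Algebra L K] (hL : FGD p d L)
    (hK : (⊤ : IntermediateField L K).FG) {r : Gal K →* Gal L} (hr : IsRes L K r)
    {A B : GRep Ω (Gal K)} (hA : 𝓒 K A) (hB : 𝓒 K B) (hBG : 𝓖 K B) {T : Type} [AddCommGroup T]
    [Module Ω T] {τ : Representation Ω r.ker T} (hτ : Irr τ)
    (hAT : Occ τ (Res r.ker.subtype A.ρ)) (hBT : Occ τ (Res r.ker.subtype B.ρ)) : 𝓖 K A := by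
  have : CharP L p := hL.charP
  have : CharP K p := charP_ext (K := L) p
  have hAi := h𝓒.irr K A hA
  have hBi := h𝓒.irr K B hB
  have : FiniteDimensional Ω A.V := hAi.1
  have : FiniteDimensional Ω B.V := hBi.1
  have hN : r.ker.Normal := inferInstance
  obtain ⟨f, hf, hf0⟩ := exists_invHom hN hBi.2 hAi.2 hτ hBT hAT
  -- the representation on the invariant homomorphisms
  have hinv : ∀ g, ∀ h ∈ invHom r.ker B.ρ A.ρ, linHom B.ρ A.ρ g h ∈ invHom r.ker B.ρ A.ρ := by
    intro g h hh n hn v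
    change A.ρ g (h (B.ρ g⁻¹ (B.ρ n v))) = A.ρ n (A.ρ g (h (B.ρ g⁻¹ v)))
    have h1 : g⁻¹ * n * g ∈ r.ker := by
      have := hN.conj_mem n hn g⁻¹
      rwa [inv_inv] at this
    have h2 : B.ρ g⁻¹ (B.ρ n v) = B.ρ (g⁻¹ * n * g) (B.ρ g⁻¹ v) := by
      rw [← rho_mul, ← rho_mul]
      congr 2
      group
    have h3 : ∀ w, A.ρ g (A.ρ (g⁻¹ * n * g) w) = A.ρ n (A.ρ g w) := by
      intro w
      rw [← rho_mul, ← rho_mul]
      congr 2
      group
    rw [h2, hh _ h1, h3]
  have hne : invHom r.ker B.ρ A.ρ ≠ ⊥ := by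
    intro h
    rw [h, Submodule.mem_bot] at hf
    exact hf0 hf
  obtain ⟨W, hW1, hW0, hW, hmin⟩ := exists_irr_sub (linHom B.ρ A.ρ) _ hinv hne
  let C : GRep Ω (Gal K) := ⟨W, subRep (linHom B.ρ A.ρ) W hW⟩
  have hCi : IsIrreducible C := by
    refine ⟨inferInstanceAs (FiniteDimensional Ω W), Submodule.nontrivial_iff_ne_bot.2 hW0, ?_⟩
    intro U hU
    have h1 : U.map W.subtype ≤ W := by
      rintro _ ⟨u, -, rfl⟩; exact u.2
    rcases hmin (U.map W.subtype) h1 (by
      rintro g _ ⟨u, hu, rfl⟩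
      exact ⟨_, hU g u hu, rfl⟩) with h | h
    · left
      exact Submodule.map_injective_of_injective W.injective_subtype (by rw [h, Submodule.map_bot])
    · right
      rw [eq_top_iff]
      intro w _
      have : (w : B.V →ₗ[Ω] A.V) ∈ U.map W.subtype := by rw [h]; exact w.2
      obtain ⟨u, hu, hw⟩ := this
      have : u = w := Subtype.ext hw
      rwa [← this]
  have hocc : Occ (subRep (linHom B.ρ A.ρ) W hW) (linHom B.ρ A.ρ) :=
    ⟨W, hW, LinearMap.id, fun s => ⟨s, rfl⟩, fun g v => rfl⟩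
  have hCs : IsSubquotient C ⟨B.V →ₗ[Ω] A.V, linHom B.ρ A.ρ⟩ := isSubquotient_iff.2 hocc
  have hC := h𝓒.hom K B A C hB hA hCi hCs
  -- it comes from the base
  obtain ⟨L', _, _, K', _, _, _, s, t, B', hL', hK', hs, ht, hB', hsub⟩ :=
    h𝓒.base L K hK r hr C hC (by
      intro g hg
      refine ⟨1, fun w => ?_⟩
      rw [one_smul]
      apply Subtype.ext
      ext v
      change A.ρ g (w.1 (B.ρ g⁻¹ v)) = w.1 v
      rw [← hW1 w.2 g hg]
      congr 1
      exact rho_inv g v)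
  have : CharP L' p := charP_ext (K := L) p
  have h1 : 𝓖 L' B' := upTo_apply hd (hL.finite L') hB'
  have h2 : 𝓖 K' (B'.res t) := h𝓖.restrict L' K' t B' ht h1
  have h3 : 𝓖 K C := h𝓖.descend K K' fg_finite s hs C (B'.res t) hCi
    (h𝓒.irr L' B' hB').2.1 hsub h2
  -- evaluation
  refine h𝓖.sub K (C.tensor B) A ?_ (h𝓖.tensor K C B h3 hBG)
  rw [isSubquotient_iff]
  let Φ : C.V →ₗ[Ω] (B.V →ₗ[Ω] A.V) :=
    { toFun := fun w => w.1
      map_add' := fun _ _ => rfl
      map_smul' := fun _ _ => rfl }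
  let F : (C.V ⊗[Ω] B.V) →ₗ[Ω] A.V := TensorProduct.lift Φ
  have hF : ∀ g x, F (TensorProduct.map (C.ρ g) (B.ρ g) x) = A.ρ g (F x) := by
    intro g x
    have : F ∘ₗ TensorProduct.map (C.ρ g) (B.ρ g) = A.ρ g ∘ₗ F := by
      refine TensorProduct.ext' fun h v => ?_
      change A.ρ g (h.1 (B.ρ g⁻¹ (B.ρ g v))) = A.ρ g (h.1 v)
      rw [rho_inv']
    exact congrArg (fun f => f x) this
  have hsurj : Function.Surjective F := by
    rw [← LinearMap.range_eq_top]
    rcases hAi.2.2 (LinearMap.range F) (by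
      rintro g _ ⟨x, rfl⟩
      exact ⟨_, hF g x⟩) with h | h
    · exfalso
      obtain ⟨w, hw, hw0⟩ := Submodule.exists_mem_ne_zero_of_ne_bot hW0
      apply hw0
      ext v
      have : F ((show C.V from ⟨w, hw⟩) ⊗ₜ v) ∈ LinearMap.range F := ⟨_, rfl⟩
      rw [h, Submodule.mem_bot] at this
      exact this
    · exact h
  exact ⟨⊤, fun _ _ _ => trivial, F ∘ₗ (⊤ : Submodule Ω _).subtype,
    fun v => by obtain ⟨w, hw⟩ := hsurj v; exact ⟨⟨w, trivial⟩, hw⟩, fun g w => hF g w.1⟩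

/-- **The geometric generic fibre.** -/
theorem genericFibre (h𝓒 : SheafClass p 𝓒) (h𝓖 : Closed p 𝓖) (hd : UpTo p d 𝓒 𝓖)
    {K K' L : Type} [Field K] [Field K'] [Field L] [Algebra K K'] [Algebra L K'] (hL : FGD p d L)
    [FiniteDimensional K K'] [CharP K p] (hK : (⊤ : IntermediateField L K').FG)
    {r : Gal K' →* Gal K} (hr : IsRes K K' r) {s : Gal K' →* Gal L} (hs : IsRes L K' s)
    {A : GRep Ω (Gal K)} {B : GRep Ω (Gal K')} (hA : 𝓒 K A) (hB : 𝓒 K' B) (hBG : 𝓖 K' B)
    {T : GRep Ω s.ker} (hT : Nontrivial T.V) (hAT : IsSubquotient T ((A.res r).res s.ker.subtype))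
    (hBT : IsSubquotient T (B.res s.ker.subtype)) : 𝓖 K A := by
  have : CharP K' p := charP_ext (K := K) p
  have hAi := h𝓒.irr K A hA
  have hBi := h𝓒.irr K' B hB
  have : FiniteDimensional Ω A.V := hAi.1
  have : FiniteDimensional Ω B.V := hBi.1
  rw [isSubquotient_iff] at hAT hBT
  have : FiniteDimensional Ω (B.res s.ker.subtype).V := hBi.1
  have : FiniteDimensional Ω T.V := hBT.finiteDimensional
  obtain ⟨W, hW, hirr, hocc⟩ := exists_irr T.ρ
  obtain ⟨X, _, _, ρ', h1, h2, h3, h4⟩ := exists_constituent (f := s.ker.subtype) hirr _ A.V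
    (Res r A.ρ) rfl (hocc.trans hAT)
  let A' : GRep Ω (Gal K') := ⟨X, ρ'⟩
  have hA'i : IsIrreducible A' := ⟨h1, h2⟩
  have hA's : IsSubquotient A' (A.res r) := isSubquotient_iff.2 h3
  have hA' : 𝓒 K' A' := h𝓒.restrict K K' r hr A A' hA hA'i hA's
  have hA'G : 𝓖 K' A' := genericFibre_aux h𝓒 h𝓖 hd hL hK hs hA' hB hBG hirr h4 (hocc.trans hBT)
  exact h𝓖.descend K K' fg_finite r hr A A' hAi h2.1 hA's hA'G

end Pool.Agent.L5helper68.FB
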