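import Pool.Agent.L5helper68.FB.Comm

/-!
# Commuting monodromies: the tensor decomposition
-/

set_option autoImplicit false

open Representation TensorProduct Pool.Agent.L5helper68.GD

namespace Pool.Agent.L5helper68.FB

variable {Ω : Type} [Field Ω]

lemma Occ.scalar {G S V : Type} [Group G] [AddCommGroup S] [Module Ω S] [AddCommGroup V]
    [Module Ω V] {σ : Representation Ω G S} {ρ : Representation Ω G V} (h : Occ σ ρ) {g : G} {c : Ω}
    (hg : ∀ v, ρ g v = c • v) (s : S) : σ g s = c • s := by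
  obtain ⟨U, hU, F, hF, h⟩ := h
  obtain ⟨v, rfl⟩ := hF s
  rw [← h, ← map_smul]
  congr 1
  exact Subtype.ext (hg v)

lemma fg_trans {L K K' : Type} [Field L] [Field K] [Field K'] [Algebra L K] [Algebra K K']
    [Algebra L K'] [IsScalarTower L K K'] [FiniteDimensional K K']
    (h : (⊤ : IntermediateField L K).FG) : (⊤ : IntermediateField L K').FG := by
  have : Algebra.EssFiniteType L K := IntermediateField.fg_top_iff.1 h
  have : Algebra.EssFiniteType L K' := Algebra.EssFiniteType.comp L K K'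
  exact IntermediateField.fg_top _ _

/-- **Commuting monodromies.** -/
theorem commuting_struct [IsAlgClosed Ω] {p : ℕ} [Fact p.Prime] {𝓒 : Cls Ω}
    (h𝓒 : SheafClass p 𝓒)
    {K L₁ L₂ : Type} [Field K] [CharP K p] [Field L₁] [Field L₂] [CharP L₁ p] [CharP L₂ p]
    [Algebra L₁ K] [Algebra L₂ K] (hK₁ : (⊤ : IntermediateField L₁ K).FG)
    (hK₂ : (⊤ : IntermediateField L₂ K).FG) {r₁ : Gal K →* Gal L₁} (hr₁ : IsRes L₁ K r₁)
    {r₂ : Gal K →* Gal L₂} (hr₂ : IsRes L₂ K r₂) {A : GRep Ω (Gal K)} (hA : 𝓒 K A)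
    (hcomm : ∀ g₁ ∈ r₁.ker, ∀ g₂ ∈ r₂.ker, A.ρ (g₁ * g₂) = A.ρ (g₂ * g₁)) :
    Splits 𝓒 K L₁ L₂ A := by
  obtain ⟨K₀, _, _, r₀, B, hfin₀, hr₀, hB, hBA, hst⟩ := h𝓒.stable K A hA
  have : CharP K₀ p := charP_ext (K := K) p
  obtain ⟨K₂, _, _, r, F₁, F₂, φ, hfin₂, hr, hF₁, hF₂, hφ, hF₂s, hF₁s⟩ :=
    split_stable (r₁ := r₂.comp r₀) (r₂ := r₁.comp r₀) h𝓒 hB hst (by
      intro g₂ hg₂ g₁ hg₁ v
      have h1 : A.ρ (r₀ (g₁ * g₂)) = A.ρ (r₀ (g₂ * g₁)) := by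
        rw [map_mul r₀ g₁ g₂, map_mul r₀ g₂ g₁]
        exact hcomm _ hg₁ _ hg₂
      have h2 : B.ρ (g₁ * g₂) = B.ρ (g₂ * g₁) :=
        Occ.apply_eq (isSubquotient_iff.1 hBA) (g := g₁ * g₂) (g' := g₂ * g₁) h1
      change B.ρ g₂ (B.ρ g₁ v) = B.ρ g₁ (B.ρ g₂ v)
      rw [← rho_mul, ← rho_mul, h2])
  have : CharP K₂ p := charP_ext (K := K₀) p
  -- the second factor
  let _ : Algebra L₂ K₀ := ((algebraMap K K₀).comp (algebraMap L₂ K)).toAlgebra
  have : IsScalarTower L₂ K K₀ := IsScalarTower.of_algebraMap_eq fun _ => rfl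
  let _ : Algebra L₂ K₂ := ((algebraMap K₀ K₂).comp (algebraMap L₂ K₀)).toAlgebra
  have : IsScalarTower L₂ K₀ K₂ := IsScalarTower.of_algebraMap_eq fun _ => rfl
  obtain ⟨L₂', _, _, K₃, _, _, _, s₃, t₂, B₂, hL₂', hfin₃, hs₃, ht₂, hB₂, hsub₂⟩ :=
    h𝓒.base L₂ K₂ (fg_trans (K := K₀) (fg_trans (K := K) hK₂)) _
      (isRes_comp (isRes_comp hr₂ hr₀) hr) F₂ hF₂ hF₂s
  have : CharP K₃ p := charP_ext (K := K₂) p
  -- the first factor
  have hσi := h𝓒.irr K₂ _ hF₁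
  have : FiniteDimensional Ω (F₁.res s₃).V := hσi.1
  have : Nontrivial (F₁.res s₃).V := hσi.2.1
  obtain ⟨W, hW, h1, h2⟩ := exists_irreducible (F₁.res s₃)
  have hC := h𝓒.restrict K₂ K₃ s₃ hs₃ _ _ hF₁ h1 h2
  let _ : Algebra L₁ K₀ := ((algebraMap K K₀).comp (algebraMap L₁ K)).toAlgebra
  have : IsScalarTower L₁ K K₀ := IsScalarTower.of_algebraMap_eq fun _ => rfl
  let _ : Algebra L₁ K₂ := ((algebraMap K₀ K₂).comp (algebraMap L₁ K₀)).toAlgebra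
  have : IsScalarTower L₁ K₀ K₂ := IsScalarTower.of_algebraMap_eq fun _ => rfl
  let _ : Algebra L₁ K₃ := ((algebraMap K₂ K₃).comp (algebraMap L₁ K₂)).toAlgebra
  have : IsScalarTower L₁ K₂ K₃ := IsScalarTower.of_algebraMap_eq fun _ => rfl
  obtain ⟨L₁', _, _, K₄, _, _, _, s₄, t₁, B₁, hL₁', hfin₄, hs₄, ht₁, hB₁, hsub₁⟩ :=
    h𝓒.base L₁ K₃ (fg_trans (K := K₂) (fg_trans (K := K₀) (fg_trans (K := K) hK₁))) _
      (isRes_comp (isRes_comp (isRes_comp hr₁ hr₀) hr) hs₃) _ hC (by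
        intro g hg
        obtain ⟨c, hc⟩ := hF₁s (s₃ g) hg
        exact ⟨c, Occ.scalar (isSubquotient_iff.1 h2) (g := g) hc⟩)
  -- assemble
  let _ : Algebra K K₂ := ((algebraMap K₀ K₂).comp (algebraMap K K₀)).toAlgebra
  have : IsScalarTower K K₀ K₂ := IsScalarTower.of_algebraMap_eq fun _ => rfl
  have : FiniteDimensional K K₂ := Module.Finite.trans K₀ K₂
  let _ : Algebra K K₃ := ((algebraMap K₂ K₃).comp (algebraMap K K₂)).toAlgebra
  have : IsScalarTower K K₂ K₃ := IsScalarTower.of_algebraMap_eq fun _ => rfl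
  have : FiniteDimensional K K₃ := Module.Finite.trans K₂ K₃
  let _ : Algebra K K₄ := ((algebraMap K₃ K₄).comp (algebraMap K K₃)).toAlgebra
  have : IsScalarTower K K₃ K₄ := IsScalarTower.of_algebraMap_eq fun _ => rfl
  have : FiniteDimensional K K₄ := Module.Finite.trans K₃ K₄
  let _ : Algebra L₂' K₄ := ((algebraMap K₃ K₄).comp (algebraMap L₂' K₃)).toAlgebra
  have : IsScalarTower L₂' K₃ K₄ := IsScalarTower.of_algebraMap_eq fun _ => rfl
  refine ⟨K₄, L₁', L₂', inferInstance, inferInstance, inferInstance, inferInstance, inferInstance,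
    inferInstance, inferInstance, inferInstance, ((r₀.comp r).comp s₃).comp s₄, t₁, t₂.comp s₄,
    B₁, B₂, inferInstance, hL₁', hL₂', isRes_comp (isRes_comp (isRes_comp hr₀ hr) hs₃) hs₄, ht₁,
    isRes_comp ht₂ hs₄, hB₁, hB₂, ?_⟩
  rw [isSubquotient_iff] at hsub₁ hsub₂ h2 hBA ⊢
  have e1 : Occ (B₁.res t₁).ρ (Res (s₃.comp s₄) F₁.ρ) := hsub₁.trans (h2.res s₄)
  have e2 : Occ (B₂.res (t₂.comp s₄)).ρ (Res (s₃.comp s₄) F₂.ρ) := hsub₂.res s₄
  have e3 : Occ (tprod (Res (s₃.comp s₄) F₁.ρ) (Res (s₃.comp s₄) F₂.ρ))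
      (Res ((r.comp s₃).comp s₄) B.ρ) := Occ.of_iso ⟨φ.symm, fun g x => by
    obtain ⟨v, rfl⟩ := φ.surjective x
    rw [LinearEquiv.symm_apply_apply, LinearEquiv.symm_apply_eq]
    exact (hφ (s₃ (s₄ g)) v).symm⟩
  exact ((e1.tprod e2).trans e3).trans (hBA.res ((r.comp s₃).comp s₄))

end Pool.Agent.L5helper68.FB
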