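import Pool.Agent.L5helper68.FB.Def

/-!
# Auxiliary results: tensor products of maps, constituents, towers of fields
-/

set_option autoImplicit false

open Representation TensorProduct Pool.Agent.L5helper68.GD

namespace Pool.Agent.L5helper68.FB

section

variable {Ω : Type} [Field Ω] {S T V : Type} [AddCommGroup S] [Module Ω S] [AddCommGroup T]
  [Module Ω T] [AddCommGroup V] [Module Ω V]

lemma tmul_left {s s' : S} {t t' : T} (h : s ⊗ₜ[Ω] t = s' ⊗ₜ[Ω] t') (f : T →ₗ[Ω] Ω) :
    f t • s = f t' • s' := by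
  have := congrArg (fun z => TensorProduct.rid Ω S (LinearMap.lTensor S f z)) h
  simpa using this

lemma tmul_right {s s' : S} {t t' : T} (h : s ⊗ₜ[Ω] t = s' ⊗ₜ[Ω] t') (f : S →ₗ[Ω] Ω) :
    f s • t = f s' • t' := by
  have := congrArg (fun z => TensorProduct.lid Ω T (LinearMap.rTensor T f z)) h
  simpa using this

lemma exists_functional {v : V} (hv : v ≠ 0) : ∃ f : V →ₗ[Ω] Ω, f v = 1 := by
  by_contra h
  push Not at h
  apply hv
  rw [← Module.forall_dual_apply_eq_zero_iff Ω v]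
  intro f
  by_contra hf
  exact h ((f v)⁻¹ • f) (by
    change (f v)⁻¹ * f v = 1
    exact inv_mul_cancel₀ hf)

/-- If `x ⊗ y = x' ⊗ 1` with `x` injective, then `y` is a scalar `c`, and `x' = c x`. -/
lemma scalar_of_map_eq [Nontrivial S] [Nontrivial T] {x x' : S →ₗ[Ω] S} {y : T →ₗ[Ω] T}
    (hx : Function.Injective x)
    (h : TensorProduct.map x y = TensorProduct.map x' LinearMap.id) :
    ∃ c : Ω, (∀ t, y t = c • t) ∧ ∀ s, x' s = c • x s := by
  obtain ⟨s₀, hs₀⟩ := exists_ne (0 : S)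
  obtain ⟨t₀, ht₀⟩ := exists_ne (0 : T)
  have hxs : x s₀ ≠ 0 := fun h0 => hs₀ (hx (by rw [h0, map_zero]))
  obtain ⟨f, hf⟩ := exists_functional (Ω := Ω) hxs
  obtain ⟨f', hf'⟩ := exists_functional (Ω := Ω) ht₀
  have h1 : ∀ s t, x s ⊗ₜ[Ω] y t = x' s ⊗ₜ[Ω] t := fun s t =>
    congrArg (fun F => F (s ⊗ₜ[Ω] t)) h
  have h2 : ∀ t, y t = f (x' s₀) • t := by
    intro t
    have := tmul_right (h1 s₀ t) f
    rwa [hf, one_smul] at this
  refine ⟨f (x' s₀), h2, fun s => ?_⟩
  have h3 := tmul_left (h1 s t₀) f'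
  rw [h2, map_smul, hf', one_smul] at h3
  rw [← h3]
  simp

lemma left_eq_of_map_eq {x x' : S →ₗ[Ω] S} {y : T →ₗ[Ω] T} {t : T} (ht : y t ≠ 0)
    (h : ∀ s, x s ⊗ₜ[Ω] y t = x' s ⊗ₜ[Ω] y t) : x = x' := by
  obtain ⟨f, hf⟩ := exists_functional (Ω := Ω) ht
  ext s
  have := tmul_left (h s) f
  rwa [hf, one_smul, one_smul] at this

end

section

variable {Ω G G' : Type} [Field Ω] [Group G] [Group G'] {S T V : Type} [AddCommGroup S] [Module Ω S]
  [AddCommGroup T] [Module Ω T] [AddCommGroup V] [Module Ω V]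

lemma Occ.apply_eq {σ : Representation Ω G S} {ρ : Representation Ω G V} (h : Occ σ ρ) {g g' : G}
    (hg : ρ g = ρ g') : σ g = σ g' := by
  obtain ⟨U, hU, F, hF, h⟩ := h
  ext s
  obtain ⟨v, rfl⟩ := hF s
  rw [← h, ← h]
  congr 1
  exact Subtype.ext (by change ρ g v = ρ g' v; rw [hg])

/-- the quotient by an invariant subspace -/
def quotRep (ρ : Representation Ω G V) (U : Submodule Ω V) (hU : ∀ g, ∀ v ∈ U, ρ g v ∈ U) :
    Representation Ω G (V ⧸ U) where
  toFun g := U.mapQ U (ρ g) (hU g)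
  map_one' := by
    ext v
    simp
  map_mul' a b := by
    ext v
    simp

/-- An irreducible subquotient of the restriction is a subquotient of the restriction of an irreducible
subquotient. -/
theorem exists_constituent {f : G' →* G} {τ : Representation Ω G' T} (hτ : Irr τ) :
    ∀ (n : ℕ) (V : Type) [AddCommGroup V] [Module Ω V] [FiniteDimensional Ω V]
      (ρ : Representation Ω G V), Module.finrank Ω V = n → Occ τ (Res f ρ) →
    ∃ (W : Type) (_ : AddCommGroup W) (_ : Module Ω W) (ρ' : Representation Ω G W),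
      FiniteDimensional Ω W ∧ Irr ρ' ∧ Occ ρ' ρ ∧ Occ τ (Res f ρ') := by
  intro n
  induction n using Nat.strong_induction_on with
  | _ n ih =>
    intro V _ _ _ ρ hn hocc
    by_cases hirr : Irr ρ
    · exact ⟨V, inferInstance, inferInstance, ρ, inferInstance, hirr, Occ.refl ρ, hocc⟩
    have hnt : Nontrivial V := by
      obtain ⟨U, hU, F, hF, -⟩ := hocc
      have := hτ.1
      obtain ⟨t, ht⟩ := exists_ne (0 : T)
      obtain ⟨u, rfl⟩ := hF t
      refine ⟨⟨u.1, 0, fun h => ht ?_⟩⟩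
      have : u = 0 := Subtype.ext h
      rw [this, map_zero]
    obtain ⟨U, hU, hU0, hU1⟩ : ∃ U : Submodule Ω V, (∀ g, ∀ v ∈ U, ρ g v ∈ U) ∧ U ≠ ⊥ ∧ U ≠ ⊤ := by
      by_contra h
      push Not at h
      exact hirr ⟨hnt, fun U hU => by
        by_cases h0 : U = ⊥
        · exact Or.inl h0
        · exact Or.inr (h U hU h0)⟩
    obtain ⟨X, hX, F, hF, hFe⟩ := hocc
    -- the image of the intersection
    let Y : Submodule Ω T := (U.comap X.subtype).map F
    have hY : ∀ g, ∀ t ∈ Y, τ g t ∈ Y := by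
      rintro g _ ⟨x, hx, rfl⟩
      refine ⟨⟨ρ (f g) x, hX g x x.2⟩, hU (f g) _ hx, hFe g x⟩
    rcases hτ.2 Y hY with h | h
    · -- it occurs in the quotient
      have hlt : Module.finrank Ω (V ⧸ U) < n := by
        have h1 := Submodule.finrank_quotient_add_finrank U
        have h2 : 0 < Module.finrank Ω U := Module.finrank_pos_iff.2
          (Submodule.nontrivial_iff_ne_bot.2 hU0)
        omega
      have hker : ∀ x : X, (x : V) ∈ U → F x = 0 := by
        intro x hx
        have : F x ∈ Y := ⟨x, hx, rfl⟩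
        rwa [h, Submodule.mem_bot] at this
      have hocc' : Occ τ (Res f (quotRep ρ U hU)) := by
        let P : X →ₗ[Ω] (V ⧸ U) := U.mkQ ∘ₗ X.subtype
        have hF' : ∀ z : LinearMap.range P, ∃ t, ∀ x : X, P x = z → F x = t := by
          rintro ⟨_, x, rfl⟩
          refine ⟨F x, fun y hy => ?_⟩
          have h1 : ((y - x : X) : V) ∈ U := by
            change U.mkQ y.1 = U.mkQ x.1 at hy
            rw [Submodule.mkQ_apply, Submodule.mkQ_apply, Submodule.Quotient.eq] at hy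
            exact hy
          have h2 := hker _ h1
          rw [map_sub, sub_eq_zero] at h2
          exact h2
        choose q hq using hF'
        have hqP : ∀ x : X, q ⟨P x, x, rfl⟩ = F x := fun x => (hq ⟨P x, x, rfl⟩ x rfl).symm
        let Q : LinearMap.range P →ₗ[Ω] T :=
          { toFun := q
            map_add' := by
              rintro ⟨_, x, rfl⟩ ⟨_, y, rfl⟩
              have : (⟨P x, x, rfl⟩ + ⟨P y, y, rfl⟩ : LinearMap.range P) = ⟨P (x + y), _, rfl⟩ :=
                Subtype.ext (map_add P x y).symm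
              rw [this, hqP, hqP, hqP, map_add]
            map_smul' := by
              rintro c ⟨_, x, rfl⟩
              have : (c • ⟨P x, x, rfl⟩ : LinearMap.range P) = ⟨P (c • x), _, rfl⟩ :=
                Subtype.ext (map_smul P c x).symm
              rw [this, hqP, hqP, map_smul]
              rfl }
        have hinv : ∀ g, ∀ z ∈ LinearMap.range P, quotRep ρ U hU (f g) z ∈ LinearMap.range P := by
          rintro g _ ⟨x, rfl⟩
          exact ⟨⟨ρ (f g) x, hX g x x.2⟩, rfl⟩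
        refine ⟨LinearMap.range P, hinv, Q, ?_, ?_⟩
        · intro t
          obtain ⟨x, rfl⟩ := hF t
          exact ⟨⟨P x, x, rfl⟩, hqP x⟩
        · rintro g ⟨_, x, rfl⟩
          change q ⟨P ⟨ρ (f g) x, hX g x x.2⟩, _⟩ = τ g (q ⟨P x, _⟩)
          rw [hqP, hqP]
          exact hFe g x
      obtain ⟨W, i1, i2, ρ', h1, h2, h3, h4⟩ := ih _ hlt (V ⧸ U) (quotRep ρ U hU) rfl hocc'
      refine ⟨W, i1, i2, ρ', h1, h2, h3.trans ?_, h4⟩
      exact ⟨⊤, fun _ _ _ => trivial, U.mkQ ∘ₗ (⊤ : Submodule Ω V).subtype, fun z => by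
        obtain ⟨v, rfl⟩ := U.mkQ_surjective z
        exact ⟨⟨v, trivial⟩, rfl⟩, fun g v => rfl⟩
    · -- it occurs in the subspace
      have hlt : Module.finrank Ω U < n := by
        rw [← hn]
        exact Submodule.finrank_lt hU1
      have hocc' : Occ τ (Res f (subRep ρ U hU)) := by
        refine ⟨X.comap U.subtype, fun g v hv => hX g _ hv,
          F ∘ₗ LinearMap.codRestrict X (U.subtype ∘ₗ (X.comap U.subtype).subtype) (fun v => v.2),
          ?_, ?_⟩
        · intro t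
          have : t ∈ Y := by rw [h]; trivial
          obtain ⟨x, hx, rfl⟩ := this
          exact ⟨⟨⟨x, hx⟩, x.2⟩, rfl⟩
        · intro g v
          exact hFe g ⟨v.1.1, v.2⟩
      obtain ⟨W, i1, i2, ρ', h1, h2, h3, h4⟩ := ih _ hlt U (subRep ρ U hU) rfl hocc'
      refine ⟨W, i1, i2, ρ', h1, h2, h3.trans ?_, h4⟩
      exact ⟨U, hU, LinearMap.id, fun s => ⟨s, rfl⟩, fun g v => rfl⟩

end

/-! ### Lifting of projective tensor factors -/

section

variable {Ω : Type} [Field Ω]

/-- transport of structure -/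
def conjRep {G S W : Type} [Group G] [AddCommGroup S] [Module Ω S] [AddCommGroup W] [Module Ω W]
    (e : S ≃ₗ[Ω] W) (ρ : Representation Ω G W) : Representation Ω G S where
  toFun g := e.symm.toLinearMap ∘ₗ ρ g ∘ₗ e.toLinearMap
  map_one' := by
    ext s
    simp
  map_mul' a b := by
    ext s
    simp

lemma conjRep_apply {G S W : Type} [Group G] [AddCommGroup S] [Module Ω S] [AddCommGroup W]
    [Module Ω W] (e : S ≃ₗ[Ω] W) (ρ : Representation Ω G W) (g : G) (s : S) :
    e (conjRep e ρ g s) = ρ g (e s) := by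
  change e (e.symm (ρ g (e s))) = _
  rw [LinearEquiv.apply_symm_apply]

theorem lift_apply {p : ℕ} {𝓒 : Cls Ω} (h : Lift p 𝓒) {K : Type} [Field K] [CharP K p]
    {A : GRep Ω (Gal K)} (hA : 𝓒 K A) (hst : Stable A) {E : Type} [Group E]
    {π : E →* Gal K} (hπ : Function.Surjective π) {S T : Type} [AddCommGroup S] [Module Ω S]
    [AddCommGroup T] [Module Ω T] (α : Representation Ω E S) (β : Representation Ω E T)
    (φ : A.V ≃ₗ[Ω] S ⊗[Ω] T)
    (hφ : ∀ x v, φ (A.ρ (π x) v) = TensorProduct.map (α x) (β x) (φ v)) :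
    ∃ (K' : Type) (_ : Field K') (_ : Algebra K K') (r : Gal K' →* Gal K) (B C : GRep Ω (Gal K'))
      (e : S ≃ₗ[Ω] B.V) (f : T ≃ₗ[Ω] C.V), FiniteDimensional K K' ∧ IsRes K K' r ∧ 𝓒 K' B ∧
      𝓒 K' C ∧ ∀ g v, φ (A.ρ (r g) v) =
        TensorProduct.map (conjRep e B.ρ g) (conjRep f C.ρ g) (φ v) := by
  obtain ⟨K', _, _, r, B, C, D, _, a, s, ψ, h1, h2, h3, h4, hs, hcomp, ⟨e0, he0, hbe⟩,
    ⟨f0, hf0, hbf⟩⟩ := h K A hA hst E π ⟨S, α⟩ ⟨T, β⟩ hπ
      ⟨φ.symm.toLinearMap, fun x y => by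
        obtain ⟨v, rfl⟩ := φ.surjective y
        change φ.symm (TensorProduct.map (α x) (β x) (φ v)) = A.ρ (π x) (φ.symm (φ v))
        rw [← hφ, LinearEquiv.symm_apply_apply, LinearEquiv.symm_apply_apply], φ.symm.bijective⟩
  let e : S ≃ₗ[Ω] B.V := LinearEquiv.ofBijective e0 hbe
  let f : T ≃ₗ[Ω] C.V := LinearEquiv.ofBijective f0 hbf
  have he : ∀ δ v, e (α (a δ) v) = ((ψ δ : Ωˣ) : Ω) • B.ρ (s δ) (e v) := by
    intro δ v
    have := he0 δ v
    change e0 (α (a δ) v) = ((ψ δ ^ (1 : ℤ) : Ωˣ) : Ω) • B.ρ (s δ) (e0 v) at this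
    rw [zpow_one] at this
    exact this
  have hf : ∀ δ v, f (β (a δ) v) = (((ψ δ)⁻¹ : Ωˣ) : Ω) • C.ρ (s δ) (f v) := by
    intro δ v
    have := hf0 δ v
    change f0 (β (a δ) v) = ((ψ δ ^ (-1 : ℤ) : Ωˣ) : Ω) • C.ρ (s δ) (f0 v) at this
    rw [zpow_neg_one] at this
    exact this
  refine ⟨K', inferInstance, inferInstance, r, B, C, e, f, h1, h2, h3, h4, ?_⟩
  intro g v
  obtain ⟨δ, rfl⟩ := hs g
  have h5 : r (s δ) = π (a δ) := congrArg (fun F : D →* Gal K => F δ) hcomp.symm
  rw [h5, hφ]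
  have key : TensorProduct.map (α (a δ)) (β (a δ)) =
      TensorProduct.map (conjRep e B.ρ (s δ)) (conjRep f C.ρ (s δ)) := by
    refine TensorProduct.ext' fun x y => ?_
    rw [TensorProduct.map_tmul, TensorProduct.map_tmul]
    have e1 : α (a δ) x = ((ψ δ : Ωˣ) : Ω) • conjRep e B.ρ (s δ) x := by
      apply e.injective
      rw [he, map_smul, conjRep_apply]
    have e2 : β (a δ) y = (((ψ δ)⁻¹ : Ωˣ) : Ω) • conjRep f C.ρ (s δ) y := by
      apply f.injective
      rw [hf, map_smul, conjRep_apply]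
    rw [e1, e2, TensorProduct.smul_tmul_smul, Units.mul_inv, one_smul]
  rw [key]

end

/-! ### Towers of fields -/

lemma isRes_comp {K L M : Type} [Field K] [Field L] [Field M] [Algebra K L] [Algebra L M]
    [Algebra K M] [IsScalarTower K L M] {r : Gal L →* Gal K} {s : Gal M →* Gal L}
    (hr : IsRes K L r) (hs : IsRes L M s) : IsRes K M (r.comp s) := by
  obtain ⟨e, he⟩ := hr
  obtain ⟨f, hf⟩ := hs
  have h1 : ∀ x : K, f (algebraMap K (AlgebraicClosure L) x) = algebraMap K (AlgebraicClosure M) x := by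
    intro x
    rw [IsScalarTower.algebraMap_apply K L (AlgebraicClosure L), f.commutes,
      IsScalarTower.algebraMap_apply K M (AlgebraicClosure M),
      IsScalarTower.algebraMap_apply K L M, ← IsScalarTower.algebraMap_apply L M (AlgebraicClosure M)]
  refine ⟨⟨(f : AlgebraicClosure L →+* AlgebraicClosure M).comp
    (e : AlgebraicClosure K →+* AlgebraicClosure L), fun x => ?_⟩, fun σ x => ?_⟩
  · change f (e (algebraMap K _ x)) = _
    rw [e.commutes]
    exact h1 x
  · change f (e (act (r (s σ)) x)) = act σ (f (e x))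
    rw [he, hf]

lemma isRes_id (K : Type) [Field K] : IsRes K K (MonoidHom.id (Gal K)) :=
  ⟨AlgHom.id K _, fun _ _ => rfl⟩

/-- `K` is a finitely generated field of characteristic `p` of transcendence degree at most `d`. -/
def FGD (p d : ℕ) [Fact p.Prime] (K : Type) [Field K] : Prop :=
  ∃ _ : Algebra (ZMod p) K, (⊤ : IntermediateField (ZMod p) K).FG ∧ Algebra.trdeg (ZMod p) K ≤ d

section

variable {p d : ℕ} [Fact p.Prime] {K : Type} [Field K]

lemma FGD.charP (h : FGD p d K) : CharP K p := by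
  obtain ⟨_, -, -⟩ := h
  exact charP_of_injective_algebraMap (algebraMap (ZMod p) K).injective p

lemma FGD.finite (h : FGD p d K) (K' : Type) [Field K'] [Algebra K K'] [FiniteDimensional K K'] :
    FGD p d K' := by
  obtain ⟨_, h1, h2⟩ := h
  let _ : Algebra (ZMod p) K' := ((algebraMap K K').comp (algebraMap (ZMod p) K)).toAlgebra
  have : IsScalarTower (ZMod p) K K' := IsScalarTower.of_algebraMap_eq fun _ => rfl
  have : Algebra.EssFiniteType (ZMod p) K := IntermediateField.fg_top_iff.1 h1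
  have : Algebra.EssFiniteType (ZMod p) K' := Algebra.EssFiniteType.comp (ZMod p) K K'
  refine ⟨inferInstance, IntermediateField.fg_top _ _, ?_⟩
  have h0 : Algebra.trdeg K K' = 0 := trdeg_eq_zero_iff.2 inferInstance
  rw [← trdeg_add_eq (ZMod p) K (A := K'), h0, add_zero]
  exact h2

lemma FGD.fg {e : ℕ} (h : FGD p e K) {L : Type} [Field L] (hL : FGD p d L) [Algebra L K] :
    (⊤ : IntermediateField L K).FG := by
  obtain ⟨_, h1, -⟩ := h
  obtain ⟨_, -, -⟩ := hL
  have : Algebra.EssFiniteType (ZMod p) K := IntermediateField.fg_top_iff.1 h1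
  exact fg_of_essFiniteType p

lemma upTo_apply {Ω : Type} [Field Ω] {𝓒 𝓖 : Cls Ω} (h : UpTo p d 𝓒 𝓖) (hK : FGD p d K)
    {A : GRep Ω (Gal K)} (hA : 𝓒 K A) : 𝓖 K A := by
  obtain ⟨_, h1, h2⟩ := hK
  exact h K h1 h2 A hA

end

end Pool.Agent.L5helper68.FB
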